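import Pool.Agent.L0h30.SR.Elim

/-! Removing two opposite triple points: the algebra. -/

namespace Pool.Agent.L0h30.SR

open Pool.Agent.R800.BT (Vd)

variable {S : Set ℕ} {m : ℕ → ℕ} {σ : ℕ → Bool} {χ : ℕ → ℕ} {R : ℕ → Prop}

/-- new labels at the names `f`, `f'`, `g`, `g'` -/
def up4 {G : Type} [Group G] (f f' g g' : ℕ) (α α' : G) (o : ℕ → G) (c : ℕ) : G :=
  if c = f then α else if c = f' then α⁻¹ else if c = g then α' else if c = g' then α'⁻¹ else o c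

theorem el12 (h : Mr S m σ χ R) {f f' g g' p p' q q' r r' t t' : ℕ}
    (nd : [f, f', g, g', p, p', q, q', r, r', t, t'].Nodup)
    (hS : ∀ c ∈ [f, f', g, g', p, p', q, q', r, r', t, t'], c ∈ S)
    (hf : m f = f') (hg : m g = g')
    (hp : σ p' = !σ p ∧ χ p' = χ p) (hq : σ q' = !σ q ∧ χ q' = χ q)
    (hr : σ r' = !σ r ∧ χ r' = χ r) (ht : σ t' = !σ t ∧ χ t' = χ t) :
    ∃ m', Mr (S \ {c | c ∈ [f, f', g, g', p, p', q, q', r, r', t, t']}) m' σ χ R ∧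
      ∀ (G : Type) [Group G] (o u : ℕ → G),
        Vd (S \ {c | c ∈ [f, f', g, g', p, p', q, q', r, r', t, t']}) m' o u →
        ∃ o₁ u₁ : ℕ → G,
          (∀ c, c ∉ [f, f', g, g', p, p', q, q', r, r', t, t'] → o₁ c = o c ∧ u₁ c = u c) ∧
          (o₁ p' = (o₁ p)⁻¹ ∧ u₁ p' = (u₁ p)⁻¹) ∧ (o₁ q' = (o₁ q)⁻¹ ∧ u₁ q' = (u₁ q)⁻¹) ∧
          (o₁ r' = (o₁ r)⁻¹ ∧ u₁ r' = (u₁ r)⁻¹) ∧ (o₁ t' = (o₁ t)⁻¹ ∧ u₁ t' = (u₁ t)⁻¹) ∧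
          ∀ α β α' β' : G, Vd S m (up4 f f' g g' α α' o₁) (up4 f f' g g' β β' u₁) := by
  simp only [List.nodup_cons, List.mem_cons, List.not_mem_nil, or_false, not_or,
    not_false_eq_true, List.nodup_nil, and_true] at nd
  simp only [List.mem_cons, List.not_mem_nil, or_false, forall_eq_or_imp, forall_eq] at hS
  obtain ⟨s1, s2, s3, s4, s5, s6, s7, s8, s9, s10, s11, s12⟩ := hS
  obtain ⟨⟨a2, a3, a4, a5, a6, a7, a8, a9, a10, a11, a12⟩,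
    ⟨b3, b4, b5, b6, b7, b8, b9, b10, b11, b12⟩, ⟨c4, c5, c6, c7, c8, c9, c10, c11, c12⟩,
    ⟨d5, d6, d7, d8, d9, d10, d11, d12⟩, ⟨e6, e7, e8, e9, e10, e11, e12⟩,
    ⟨f7, f8, f9, f10, f11, f12⟩, ⟨g8, g9, g10, g11, g12⟩, ⟨h9, h10, h11, h12⟩,
    ⟨i10, i11, i12⟩, ⟨j11, j12⟩, k12⟩ := nd
  have hf' : m f' = f := by rw [← hf, (h f s1).2.1]
  have hg' : m g' = g := by rw [← hg, (h g s3).2.1]
  obtain ⟨m1, k1⟩ := el_free2 h hf hf' a2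
  obtain ⟨m2, k2⟩ := el_free2 m1 hg hg' c4
  obtain ⟨n3, m3, k3⟩ := el_pair m2 (a := p) (a' := p')
    ⟨⟨s5, by simp [Ne.symm a5, Ne.symm b5]⟩, by simp [Ne.symm c5, Ne.symm d5]⟩
    ⟨⟨s6, by simp [Ne.symm a6, Ne.symm b6]⟩, by simp [Ne.symm c6, Ne.symm d6]⟩ e6 hp.1 hp.2
  obtain ⟨n4, m4, k4⟩ := el_pair m3 (a := q) (a' := q')
    ⟨⟨⟨s7, by simp [Ne.symm a7, Ne.symm b7]⟩, by simp [Ne.symm c7, Ne.symm d7]⟩,
      by simp [Ne.symm e7, Ne.symm f7]⟩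
    ⟨⟨⟨s8, by simp [Ne.symm a8, Ne.symm b8]⟩, by simp [Ne.symm c8, Ne.symm d8]⟩,
      by simp [Ne.symm e8, Ne.symm f8]⟩ g8 hq.1 hq.2
  obtain ⟨n5, m5, k5⟩ := el_pair m4 (a := r) (a' := r')
    ⟨⟨⟨⟨s9, by simp [Ne.symm a9, Ne.symm b9]⟩, by simp [Ne.symm c9, Ne.symm d9]⟩,
      by simp [Ne.symm e9, Ne.symm f9]⟩, by simp [Ne.symm g9, Ne.symm h9]⟩
    ⟨⟨⟨⟨s10, by simp [Ne.symm a10, Ne.symm b10]⟩, by simp [Ne.symm c10, Ne.symm d10]⟩,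
      by simp [Ne.symm e10, Ne.symm f10]⟩, by simp [Ne.symm g10, Ne.symm h10]⟩ i10 hr.1 hr.2
  obtain ⟨n6, m6, k6⟩ := el_pair m5 (a := t) (a' := t')
    ⟨⟨⟨⟨⟨s11, by simp [Ne.symm a11, Ne.symm b11]⟩, by simp [Ne.symm c11, Ne.symm d11]⟩,
      by simp [Ne.symm e11, Ne.symm f11]⟩, by simp [Ne.symm g11, Ne.symm h11]⟩,
      by simp [Ne.symm i11, Ne.symm j11]⟩
    ⟨⟨⟨⟨⟨s12, by simp [Ne.symm a12, Ne.symm b12]⟩, by simp [Ne.symm c12, Ne.symm d12]⟩,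
      by simp [Ne.symm e12, Ne.symm f12]⟩, by simp [Ne.symm g12, Ne.symm h12]⟩,
      by simp [Ne.symm i12, Ne.symm j12]⟩ k12 ht.1 ht.2
  have hSet : (((((S \ {f, f'}) \ {g, g'}) \ {p, p'}) \ {q, q'}) \ {r, r'}) \ {t, t'} =
      S \ {c | c ∈ [f, f', g, g', p, p', q, q', r, r', t, t']} := by
    rw [Set.diff_diff, Set.diff_diff, Set.diff_diff, Set.diff_diff, Set.diff_diff]
    congr 1
    ext c
    simp only [Set.mem_union, Set.mem_insert_iff, Set.mem_singleton_iff, Set.mem_ofPred_eq,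
      List.mem_cons, List.not_mem_nil, or_false, or_assoc]
  rw [hSet] at m6 k6
  refine ⟨n6, m6, fun G _ o u hv => ?_⟩
  obtain ⟨o5, u5, v5, w5, x5, y5⟩ := k6 G o u hv
  obtain ⟨o4, u4, v4, w4, x4, y4⟩ := k5 G o5 u5 v5
  obtain ⟨o3, u3, v3, w3, x3, y3⟩ := k4 G o4 u4 v4
  obtain ⟨o2, u2, v2, w2, x2, y2⟩ := k3 G o3 u3 v3
  refine ⟨o2, u2, fun c hc => ?_, ⟨x2, y2⟩, ?_, ?_, ?_, fun α β α' β' => ?_⟩
  · simp only [List.mem_cons, List.not_mem_nil, or_false, not_or] at hc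
    obtain ⟨z1, z2, z3, z4, z5, z6, z7, z8, z9, z10, z11, z12⟩ := hc
    rw [(w2 c z5 z6).1, (w2 c z5 z6).2, (w3 c z7 z8).1, (w3 c z7 z8).2, (w4 c z9 z10).1,
      (w4 c z9 z10).2, (w5 c z11 z12).1, (w5 c z11 z12).2]
    exact ⟨rfl, rfl⟩
  · have t1 := w2 q (Ne.symm e7) (Ne.symm f7)
    have t2 := w2 q' (Ne.symm e8) (Ne.symm f8)
    rw [t1.1, t1.2, t2.1, t2.2]
    exact ⟨x3, y3⟩
  · have t1 := w2 r (Ne.symm e9) (Ne.symm f9)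
    have t2 := w2 r' (Ne.symm e10) (Ne.symm f10)
    have t3 := w3 r (Ne.symm g9) (Ne.symm h9)
    have t4 := w3 r' (Ne.symm g10) (Ne.symm h10)
    rw [t1.1, t1.2, t2.1, t2.2, t3.1, t3.2, t4.1, t4.2]
    exact ⟨x4, y4⟩
  · have t1 := w2 t (Ne.symm e11) (Ne.symm f11)
    have t2 := w2 t' (Ne.symm e12) (Ne.symm f12)
    have t3 := w3 t (Ne.symm g11) (Ne.symm h11)
    have t4 := w3 t' (Ne.symm g12) (Ne.symm h12)
    have t5 := w4 t (Ne.symm i11) (Ne.symm j11)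
    have t6 := w4 t' (Ne.symm i12) (Ne.symm j12)
    rw [t1.1, t1.2, t2.1, t2.2, t3.1, t3.2, t4.1, t4.2, t5.1, t5.2, t6.1, t6.2]
    exact ⟨x5, y5⟩
  · exact k1 G _ _ (k2 G o2 u2 v2 α' β') α β

/-- the value of a circle -/
def w4 {G : Type} [Group G] (e : Bool) (p₁ p₂ q₁ q₂ : G) : G :=
  if e then q₂ * p₂ * q₁ * p₁ else p₂ * q₂ * p₁ * q₁

theorem w4_mirror {G : Type} [Group G] (e : Bool) {p₁ p₂ q₁ q₂ : G} (h : w4 e p₁ p₂ q₁ q₂ = 1) :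
    w4 (!e) p₁⁻¹ p₂⁻¹ q₁⁻¹ q₂⁻¹ = 1 := by
  cases e
  · simp only [w4, Bool.false_eq_true, if_false, Bool.not_false, if_true] at h ⊢
    have h1 : p₂ * q₂ = (p₁ * q₁)⁻¹ := by
      rw [eq_inv_iff_mul_eq_one, ← h]; group
    have h2 : q₂⁻¹ * p₂⁻¹ = p₁ * q₁ := by rw [← mul_inv_rev, h1, inv_inv]
    rw [h2]; group
  · simp only [w4, if_true, Bool.not_true, Bool.false_eq_true, if_false] at h ⊢
    have h1 : q₂ * p₂ = (q₁ * p₁)⁻¹ := by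
      rw [eq_inv_iff_mul_eq_one, ← h]; group
    have h2 : p₂⁻¹ * q₂⁻¹ = q₁ * p₁ := by rw [← mul_inv_rev, h1, inv_inv]
    rw [h2]; group

theorem w4_solve {G : Type} [Group G] (e : Bool) (p₂ q₁ q₂ : G) : ∃ p₁, w4 e p₁ p₂ q₁ q₂ = 1 := by
  cases e
  · refine ⟨(p₂ * q₂)⁻¹ * q₁⁻¹, ?_⟩
    simp only [w4, Bool.false_eq_true, if_false]; group
  · refine ⟨(q₂ * p₂ * q₁)⁻¹, ?_⟩
    simp only [w4, if_true]; group

end Pool.Agent.L0h30.SR
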