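import Pool.Agent.L0h30.SR.Remove2

/-! Bigons between two triple points. -/

namespace Pool.Agent.L0h30.SR

open Pool.Agent.Y468.SR
open Pool.Agent.Y874.TP hiding S_REID S_REN S_THREE S_OUT S_CUT S_JUNC CStep CReid CM InvM InvC Inv3
  creid_after same_facts invM_ceq
open Pool.Agent.Y874.TP2

/-- the colours of the double curves through a triple point: of the crossing of the top and the middle
sheet, of the top and the bottom sheet, of the middle and the bottom sheet -/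
def std (T : Tri) : ℕ × ℕ × ℕ :=
  match T.ta, T.tb, T.tc with
  | true, true, true => (colour T.a₁, colour T.b₁, colour T.c₁)
  | true, true, false => (colour T.b₁, colour T.a₁, colour T.c₁)
  | false, true, true => (colour T.a₁, colour T.c₁, colour T.b₁)
  | true, false, false => (colour T.b₁, colour T.c₁, colour T.a₁)
  | false, false, true => (colour T.c₁, colour T.a₁, colour T.b₁)
  | false, false, false => (colour T.c₁, colour T.b₁, colour T.a₁)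
  | _, _, _ => (0, 0, 0)

/-- exchanging the crossings `c₁`, `c₂` -/
def swapC (T : Tri) : Tri :=
  { T with c₁ := T.c₂, c₂ := T.c₁, sc := !T.sc, ej := !T.ej, ek := !T.ek }

structure TS (T T' : Tri) : Prop where
  tr : TR T T'
  st : T.Ok → T.Col → std T' = std T

theorem TS.refl (T : Tri) : TS T T := ⟨TR.refl T, fun _ _ => rfl⟩

theorem TS.trans {T T' T'' : Tri} (h : TS T T') (h' : TS T' T'') : TS T T'' :=
  ⟨h.tr.trans h'.tr, fun k k' => (h'.st (h.tr.ok k) (h.tr.col k')).trans (h.st k k')⟩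

theorem ts_swapA (T : Tri) : TS T T.swapA := by
  refine ⟨tr_swapA T, fun _ hc => ?_⟩
  simp only [std, Tri.swapA, hc.1]

theorem ts_swapB (T : Tri) : TS T T.swapB := by
  refine ⟨tr_swapB T, fun _ hc => ?_⟩
  simp only [std, Tri.swapB, hc.2.1]

theorem ts_swapC (T : Tri) : TS T (swapC T) := by
  refine ⟨⟨?_, ?_, ?_, ?_⟩, fun _ hc => ?_⟩
  · obtain ⟨a₁, a₂, b₁, b₂, c₁, c₂, ta, tb, tc, sa, sb, sc, ei, ej, ek, li, lj, lk⟩ := T
    simp only [Tri.Ok, swapC]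
    revert ta tb tc sa sb sc ei ej ek; decide
  · rintro ⟨h1, h2, h3⟩; exact ⟨h1, h2, h3.symm⟩
  · rintro ⟨h1, h2, h3⟩
    simp only [tprs, kap, lc, Tri.pa₁, Tri.pb₁, Tri.pc₁, Pass.mate, swapC, h3]
    exact List.Perm.refl _
  · have h1 : (swapC T).pc₁ = T.pc₂ := by simp [Tri.pc₁, Tri.pc₂, swapC]
    have h2 : (swapC T).pc₂ = T.pc₁ := by simp [Tri.pc₁, Tri.pc₂, swapC]
    simp only [Tri.code, Tri.wi, Tri.wj, Tri.wk, h1, h2]
    exact ceq_three (RotW.refl _) (word4_swap₂ _ _ _ _ _) (word4_swap₂ _ _ _ _ _)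
  · simp only [std, swapC, hc.2.2]

theorem ts_tij (T : Tri) : TS T T.tij := by
  refine ⟨tr_tij T, fun hok _ => ?_⟩
  obtain ⟨a₁, a₂, b₁, b₂, c₁, c₂, ta, tb, tc, sa, sb, sc, ei, ej, ek, li, lj, lk⟩ := T
  have := hok.1
  simp only at this
  cases ta <;> cases tb <;> cases tc <;> simp_all [std, Tri.tij]

theorem ts_tjk (T : Tri) : TS T T.tjk := by
  refine ⟨tr_tjk T, fun hok _ => ?_⟩
  obtain ⟨a₁, a₂, b₁, b₂, c₁, c₂, ta, tb, tc, sa, sb, sc, ei, ej, ek, li, lj, lk⟩ := T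
  have := hok.1
  simp only at this
  cases ta <;> cases tb <;> cases tc <;> simp_all [std, Tri.tjk]

theorem normalS_i {T : Tri} {r p : Pass} (h : Cyc r p T.wi) :
    ∃ T' : Tri, T'.ei = true ∧ p = T'.pa₁ ∧ r = T'.pb₁ ∧ TS T T' := by
  unfold Tri.wi word4 at h
  split_ifs at h with he
  · rcases Tri.cyc4 h with ⟨rfl, rfl⟩ | ⟨rfl, rfl⟩ | ⟨rfl, rfl⟩ | ⟨rfl, rfl⟩
    · exact ⟨T.swapA.swapB, by simp [Tri.swapA, Tri.swapB, he], by simp [Tri.swapA, Tri.swapB, Tri.pa₁, Tri.pa₂],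
        by simp [Tri.swapA, Tri.swapB, Tri.pb₁, Tri.pb₂], (ts_swapA T).trans (ts_swapB _)⟩
    · exact ⟨T.tjk.swapB, by simp [Tri.tjk, Tri.swapB, he], by simp [Tri.tjk, Tri.swapB, Tri.pa₁, Tri.pb₁],
        by simp [Tri.tjk, Tri.swapB, Tri.pb₁, Tri.pa₂], (ts_tjk T).trans (ts_swapB _)⟩
    · exact ⟨T, he, rfl, rfl, TS.refl T⟩
    · exact ⟨T.tjk.swapA, by simp [Tri.tjk, Tri.swapA, he], by simp [Tri.tjk, Tri.swapA, Tri.pa₁, Tri.pb₂],
        by simp [Tri.tjk, Tri.swapA, Tri.pb₁, Tri.pa₁], (ts_tjk T).trans (ts_swapA _)⟩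
  · have he : T.ei = false := by simpa using he
    rcases Tri.cyc4 h with ⟨rfl, rfl⟩ | ⟨rfl, rfl⟩ | ⟨rfl, rfl⟩ | ⟨rfl, rfl⟩
    · exact ⟨T.tjk.swapA.swapB, by simp [Tri.tjk, Tri.swapA, Tri.swapB, he],
        by simp [Tri.tjk, Tri.swapA, Tri.swapB, Tri.pa₁, Tri.pb₂], by simp [Tri.tjk, Tri.swapA, Tri.swapB, Tri.pb₁, Tri.pa₂],
        ((ts_tjk T).trans (ts_swapA _)).trans (ts_swapB _)⟩
    · exact ⟨T.swapB, by simp [Tri.swapB, he], by simp [Tri.swapB, Tri.pa₁], by simp [Tri.swapB, Tri.pb₁, Tri.pb₂],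
        ts_swapB T⟩
    · exact ⟨T.tjk, by simp [Tri.tjk, he], by simp [Tri.tjk, Tri.pa₁, Tri.pb₁], by simp [Tri.tjk, Tri.pb₁, Tri.pa₁], ts_tjk T⟩
    · exact ⟨T.swapA, by simp [Tri.swapA, he], by simp [Tri.swapA, Tri.pa₁, Tri.pa₂], by simp [Tri.swapA, Tri.pb₁],
        ts_swapA T⟩

theorem normalS {T : Tri} {W : List Pass} (hW : W ∈ [T.wi, T.wj, T.wk]) {r p : Pass}
    (h : Cyc r p W) : ∃ T' : Tri, T'.ei = true ∧ p = T'.pa₁ ∧ r = T'.pb₁ ∧ TS T T' := by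
  simp only [List.mem_cons, List.not_mem_nil, or_false] at hW
  rcases hW with rfl | rfl | rfl
  · exact normalS_i h
  · obtain ⟨T', h1, h2, h3, h4⟩ := normalS_i (T := T.tij) h
    exact ⟨T', h1, h2, h3, (ts_tij T).trans h4⟩
  · obtain ⟨T', h1, h2, h3, h4⟩ := normalS_i (T := T.tjk.tij) h
    exact ⟨T', h1, h2, h3, ((ts_tjk T).trans (ts_tij _)).trans h4⟩

/-- the crossing pairs of one triple point are different -/
theorem nd3 (f : ℕ → Bool) (α β γ : ℕ) (ta tb tc : Bool) (hok : tc = tb ∨ ta = tb)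
    (h1 : (α, ta || f α) ≠ (β, tb || f β)) (h2 : (α, !ta || f α) ≠ (γ, tc || f γ))
    (h3 : (β, !tb || f β) ≠ (γ, !tc || f γ)) :
    s((α, ta || f α), (β, tb || f β)) ≠ s((α, !ta || f α), (γ, tc || f γ)) ∧
    s((α, ta || f α), (β, tb || f β)) ≠ s((β, !tb || f β), (γ, !tc || f γ)) ∧
    s((α, !ta || f α), (γ, tc || f γ)) ≠ s((β, !tb || f β), (γ, !tc || f γ)) := by
  refine ⟨?_, ?_, ?_⟩
  · rw [Ne, Sym2.eq_iff]
    rintro (⟨k1, k2⟩ | ⟨k1, k2⟩)
    · have e : β = γ := congrArg Prod.fst k2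
      subst e
      generalize f β = u at *
      generalize f α = v at *
      cases u <;> cases v <;> cases ta <;> cases tb <;> cases tc <;> simp_all
    · have e : α = γ := congrArg Prod.fst k1
      have e' : β = α := congrArg Prod.fst k2
      subst e e'
      generalize f β = u at *
      cases u <;> cases ta <;> cases tb <;> cases tc <;> simp_all
  · rw [Ne, Sym2.eq_iff]
    rintro (⟨k1, k2⟩ | ⟨k1, k2⟩)
    · have e : α = β := congrArg Prod.fst k1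
      have e' : β = γ := congrArg Prod.fst k2
      subst e e'
      generalize f α = u at *
      cases u <;> cases ta <;> cases tb <;> cases tc <;> simp_all
    · have e : α = γ := congrArg Prod.fst k1
      subst e
      generalize f β = u at *
      generalize f α = v at *
      cases u <;> cases v <;> cases ta <;> cases tb <;> cases tc <;> simp_all
  · rw [Ne, Sym2.eq_iff]
    rintro (⟨k1, k2⟩ | ⟨k1, k2⟩)
    · have e : α = β := congrArg Prod.fst k1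
      subst e
      generalize f α = u at *
      generalize f γ = v at *
      cases u <;> cases v <;> cases ta <;> cases tb <;> cases tc <;> simp_all
    · have e : α = γ := congrArg Prod.fst k1
      have e' : γ = β := congrArg Prod.fst k2
      subst e e'
      generalize f α = u at *
      cases u <;> cases ta <;> cases tb <;> cases tc <;> simp_all

theorem tprs_ne {T : Tri} (hok : T.Ok) (hd : ∀ e ∈ tprs T, ¬e.IsDiag) :
    s(kap T.pa₁, kap T.pb₁) ≠ s(kap T.pa₁.mate, kap T.pc₁) ∧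
    s(kap T.pa₁, kap T.pb₁) ≠ s(kap T.pb₁.mate, kap T.pc₁.mate) ∧
    s(kap T.pa₁.mate, kap T.pc₁) ≠ s(kap T.pb₁.mate, kap T.pc₁.mate) := by
  have h1 : kap T.pa₁ ≠ kap T.pb₁ := fun h => hd _ (by simp [tprs]) (Sym2.mk_isDiag_iff.2 h)
  have h2 : kap T.pa₁.mate ≠ kap T.pc₁ := fun h => hd _ (by simp [tprs]) (Sym2.mk_isDiag_iff.2 h)
  have h3 : kap T.pb₁.mate ≠ kap T.pc₁.mate := fun h =>
    hd _ (by simp [tprs]) (Sym2.mk_isDiag_iff.2 h)
  exact nd3 (fun k => k % 2 == 0) (colour T.a₁) (colour T.b₁) (colour T.c₁) T.ta T.tb T.tc hok.1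
    h1 h2 h3

theorem same_circle {K : Type} {e : Bool} {p₁ p₂ q₁ q₂ : Pass} {κ : Pass → K}
    (h1 : κ p₂ = κ p₁) (h2 : κ q₂ = κ q₁) (h3 : κ p₁ ≠ κ q₁) {x y x' y' : Pass}
    (hx : κ x' = κ x) (hy : κ y' = κ y) (hx' : x' ≠ x) (hy' : y' ≠ y)
    (c1 : Cyc x y' (word4 e p₁ p₂ q₁ q₂)) (c2 : Cyc y x' (word4 e p₁ p₂ q₁ q₂)) : False := by
  have h3' := Ne.symm h3
  cases e <;> simp only [word4, Bool.false_eq_true, if_false, if_true] at c1 c2 <;>
    rcases Tri.cyc4 c1 with ⟨rfl, rfl⟩ | ⟨rfl, rfl⟩ | ⟨rfl, rfl⟩ | ⟨rfl, rfl⟩ <;>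
    rcases Tri.cyc4 c2 with ⟨e1, e2⟩ | ⟨e1, e2⟩ | ⟨e1, e2⟩ | ⟨e1, e2⟩ <;>
    rw [e1] at hy hy' <;> rw [e2] at hx hx' <;>
    first
      | exact hx' rfl
      | exact hy' rfl
      | (rw [h1] at hx; exact h3 hx)
      | (rw [h2] at hx; exact h3' hx)
      | (rw [h1, h2] at hx; exact h3 hx)
      | (rw [h2, h1] at hx; exact h3' hx)
      | exact h3 hx
      | exact h3' hx
      | (rw [h1] at hx; exact h3' hx)
      | (rw [h2] at hx; exact h3 hx)

theorem kap_pa {T : Tri} (hc : T.Col) : kap T.pa₂ = kap T.pa₁ ∧ kap T.pa₂.mate = kap T.pa₁.mate := by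
  simp only [kap, lc, Tri.pa₁, Tri.pa₂, Pass.mate, hc.1, and_self]

theorem kap_pb {T : Tri} (hc : T.Col) : kap T.pb₂ = kap T.pb₁ ∧ kap T.pb₂.mate = kap T.pb₁.mate := by
  simp only [kap, lc, Tri.pb₁, Tri.pb₂, Pass.mate, hc.2.1, and_self]

theorem kap_pc {T : Tri} (hc : T.Col) : kap T.pc₂ = kap T.pc₁ ∧ kap T.pc₂.mate = kap T.pc₁.mate := by
  simp only [kap, lc, Tri.pc₁, Tri.pc₂, Pass.mate, hc.2.2, and_self]

theorem adj_word4 {K : Type} {e : Bool} {p₁ p₂ q₁ q₂ : Pass} {κ : Pass → K}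
    (h1 : κ p₂ = κ p₁) (h2 : κ q₂ = κ q₁) {x y : Pass}
    (c1 : Cyc x y (word4 e p₁ p₂ q₁ q₂)) : s(κ x, κ y) = s(κ p₁, κ q₁) := by
  cases e <;> simp only [word4, Bool.false_eq_true, if_false, if_true] at c1 <;>
    rcases Tri.cyc4 c1 with ⟨rfl, rfl⟩ | ⟨rfl, rfl⟩ | ⟨rfl, rfl⟩ | ⟨rfl, rfl⟩ <;>
    (try simp only [h1, h2]) <;> first | rfl | exact Sym2.eq_swap

/-- consecutive members of a circle belong to curves crossing one another -/
theorem adj_mem {T : Tri} (hc : T.Col) {W : List Pass} (hW : W ∈ [T.wi, T.wj, T.wk]) {r p : Pass}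
    (h : Cyc r p W) : s(kap r, kap p) ∈ tprs T := by
  simp only [List.mem_cons, List.not_mem_nil, or_false] at hW
  rcases hW with rfl | rfl | rfl
  · rw [adj_word4 (kap_pa hc).1 (kap_pb hc).1 h]; simp [tprs]
  · rw [adj_word4 (kap_pa hc).2 (kap_pc hc).1 h]; simp [tprs]
  · rw [adj_word4 (kap_pb hc).2 (kap_pc hc).2 h]; simp [tprs]

/-- a triple point has no bigon with itself -/
theorem no_self {T : Tri} (hok : T.Ok) (hc : T.Col) (hd : ∀ e ∈ tprs T, ¬e.IsDiag)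
    {W W' : List Pass} (hW : W ∈ [T.wi, T.wj, T.wk]) (hW' : W' ∈ [T.wi, T.wj, T.wk])
    {x y x' y' : Pass} (hx : kap x' = kap x) (hy : kap y' = kap y) (hx' : x' ≠ x) (hy' : y' ≠ y)
    (c1 : Cyc x y' W) (c2 : Cyc y x' W') : False := by
  obtain ⟨n1, n2, n3⟩ := tprs_ne hok hd
  have d1 : kap T.pa₁ ≠ kap T.pb₁ := fun h => hd _ (by simp [tprs]) (Sym2.mk_isDiag_iff.2 h)
  have d2 : kap T.pa₁.mate ≠ kap T.pc₁ := fun h => hd _ (by simp [tprs]) (Sym2.mk_isDiag_iff.2 h)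
  have d3 : kap T.pb₁.mate ≠ kap T.pc₁.mate := fun h =>
    hd _ (by simp [tprs]) (Sym2.mk_isDiag_iff.2 h)
  have key : s(kap x, kap y') = s(kap y, kap x') := by rw [hx, hy, Sym2.eq_swap]
  simp only [List.mem_cons, List.not_mem_nil, or_false] at hW hW'
  rcases hW with rfl | rfl | rfl <;> rcases hW' with rfl | rfl | rfl
  · exact same_circle (kap_pa hc).1 (kap_pb hc).1 d1 hx hy hx' hy' c1 c2
  · rw [adj_word4 (kap_pa hc).1 (kap_pb hc).1 c1, adj_word4 (kap_pa hc).2 (kap_pc hc).1 c2] at key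
    exact n1 key
  · rw [adj_word4 (kap_pa hc).1 (kap_pb hc).1 c1, adj_word4 (kap_pb hc).2 (kap_pc hc).2 c2] at key
    exact n2 key
  · rw [adj_word4 (kap_pa hc).1 (kap_pb hc).1 c2, adj_word4 (kap_pa hc).2 (kap_pc hc).1 c1] at key
    exact n1 key.symm
  · exact same_circle (kap_pa hc).2 (kap_pc hc).1 d2 hx hy hx' hy' c1 c2
  · rw [adj_word4 (kap_pb hc).2 (kap_pc hc).2 c2, adj_word4 (kap_pa hc).2 (kap_pc hc).1 c1] at key
    exact n3 key
  · rw [adj_word4 (kap_pa hc).1 (kap_pb hc).1 c2, adj_word4 (kap_pb hc).2 (kap_pc hc).2 c1] at key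
    exact n2 key.symm
  · rw [adj_word4 (kap_pa hc).2 (kap_pc hc).1 c2, adj_word4 (kap_pb hc).2 (kap_pc hc).2 c1] at key
    exact n3 key.symm
  · exact same_circle (kap_pb hc).2 (kap_pc hc).2 d3 hx hy hx' hy' c1 c2

end Pool.Agent.L0h30.SR
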