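import Pool.Agent.L0h30.SR.Bigon
import Pool.Agent.R800.BT.Step

/-! Bigons between two triple points: removal. -/

namespace Pool.Agent.L0h30.SR

open Pool.Agent.Y468.SR
open Pool.Agent.Y874.TP hiding S_REID S_REN S_THREE S_OUT S_CUT S_JUNC CStep CReid CM InvM InvC Inv3
  creid_after same_facts invM_ceq invM_perm
open Pool.Agent.Y874.TP2
open Pool.Agent.R800.BT (perm_TC mate_code)

variable {m : ℕ → ℕ}

theorem cyc_mem {r p : Pass} {W : List Pass} (h : Cyc r p W) : r ∈ W ∧ p ∈ W := by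
  rcases h with ⟨u, v, rfl⟩ | ⟨u, rfl⟩ <;> simp

theorem circle_mem {T : Tri} {W : List Pass} (hW : W ∈ [T.wi, T.wj, T.wk]) {p : Pass} (hp : p ∈ W) :
    p ∈ passes T.code := by
  simp only [List.mem_cons, List.not_mem_nil, or_false] at hW
  rcases hW with rfl | rfl | rfl <;> simp [Tri.code, hp]

theorem code_mem {Ts : List Tri} {T : Tri} (hT : T ∈ Ts) {p : Pass} (hp : p ∈ passes T.code) :
    p ∈ passes (TC Ts) := by
  obtain ⟨C, hC, hpC⟩ := mem_passes.1 hp
  exact mem_passes.2 ⟨C, List.mem_flatMap.2 ⟨T, hT, hC⟩, hpC⟩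

/-- the joining edges of a bigon -/
theorem edge {P : List Pass} (hcm : CM P m) {p q : Pass} (hp : p ∈ P)
    (hq : part m p = q) (hne : q.crossing ≠ p.crossing) :
    m p.crossing = q.crossing ∧ q.isOver = p.isOver ∧ q.isPos = !p.isPos ∧
      colour q.crossing = colour p.crossing := by
  unfold part at hq
  split_ifs at hq with h
  · rw [← hq] at hne
    exact absurd rfl hne
  · rw [← hq]
    exact ⟨rfl, rfl, rfl, (hcm p hp).1⟩

/-- the third crossings -/
theorem third {T T' : Tri} (hok : T.Ok) (hok' : T'.Ok) (hcol : T.Col)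
    (hd : kap T.pa₁ ≠ kap T.pb₁) (hst : std T' = std T) (h1 : T'.ta = T.ta) (h2 : T'.tb = T.tb)
    (h3 : colour T'.a₁ = colour T.a₁) (h4 : colour T'.b₁ = colour T.b₁) :
    T'.tc = T.tc ∧ colour T'.c₁ = colour T.c₁ := by
  have o1 := hok.1
  have o2 := hok'.1
  simp only [kap, lc, Tri.pa₁, Tri.pb₁] at hd
  obtain ⟨a₁, a₂, b₁, b₂, c₁, c₂, ta, tb, tc, sa, sb, sc, ei, ej, ek, li, lj, lk⟩ := T
  obtain ⟨a₁', a₂', b₁', b₂', c₁', c₂', ta', tb', tc', sa', sb', sc', ei', ej', ek', li', lj', lk'⟩ := T'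
  simp only at h1 h2 h3 h4 o1 o2 hd
  subst h1 h2
  simp only [std] at hst
  generalize colour a₁ = α at *
  generalize colour b₁ = β at *
  generalize colour c₁ = γ at *
  generalize colour a₁' = α' at *
  generalize colour b₁' = β' at *
  generalize colour c₁' = γ' at *
  subst h3 h4
  cases ta' <;> cases tb' <;> cases tc <;> cases tc' <;> simp_all

/-- the crossings can be named such that the second triple point is the mirror image of the first -/
theorem exists_mir {T T' : Tri} (hok : T.Ok) (hok' : T'.Ok) (hcol : T.Col) (hcol' : T'.Col)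
    (hd : kap T.pa₁ ≠ kap T.pb₁) (hst : std T' = std T) (h1 : T'.ta = T.ta) (h2 : T'.tb = T.tb)
    (h3 : colour T'.a₁ = colour T.a₁) (h4 : colour T'.b₁ = colour T.b₁) (h5 : T'.sa = !T.sa)
    (h6 : T'.sb = !T.sb) (h7 : T'.ei = !T.ei) (h8 : m T.a₁ = T'.a₁) (h9 : m T.b₁ = T'.b₁) :
    ∃ T'', TS T' T'' ∧ Mir T T'' m := by
  obtain ⟨k1, k2⟩ := third hok hok' hcol hd hst h1 h2 h3 h4
  have key : ∀ S : Tri, S.Ok → S.ta = T.ta → S.tb = T.tb → S.tc = T.tc → S.sa = (!T.sa) →
      S.sb = (!T.sb) → S.ei = (!T.ei) → S.ej = (!T.ej) → S.ek = (!T.ek) ∧ S.sc = (!T.sc) := by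
    intro S hS e1 e2 e3 e4 e5 e6 e7
    have o1 := hok
    unfold Tri.Ok at o1 hS
    rw [e1, e2, e3, e4, e5, e6, e7] at hS
    revert o1 hS
    generalize T.ta = ta
    generalize T.tb = tb
    generalize T.tc = tc
    generalize T.sa = sa
    generalize T.sb = sb
    generalize T.sc = sc
    generalize T.ei = ei
    generalize T.ej = ej
    generalize T.ek = ek
    generalize S.sc = sc'
    generalize S.ek = ek'
    revert ta tb tc sa sb sc ei ej ek sc' ek'
    decide
  by_cases hej : T'.ej = !T.ej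
  · obtain ⟨j1, j2⟩ := key T' hok' h1 h2 k1 h5 h6 h7 hej
    exact ⟨T', TS.refl T', ⟨h3, h4, k2, h1, h2, k1, h7, hej, j1, h5, h6, j2, h8, h9⟩⟩
  · have hej' : (swapC T').ej = !T.ej := by
      simp only [swapC]
      cases h : T'.ej <;> cases h' : T.ej <;> simp_all
    have hts := ts_swapC T'
    obtain ⟨j1, j2⟩ := key (swapC T') (hts.tr.ok hok') h1 h2 k1 h5 h6 h7 hej'
    exact ⟨swapC T', hts, ⟨h3, h4, hcol'.2.2.trans k2, h1, h2, k1, h7, hej', j1, h5, h6, j2,
      h8, h9⟩⟩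

/-- two triple points joined by a bigon can be removed -/
theorem bigon_step {D : Code} {Ts : List Tri} (hw : WF (passes (D ++ TC Ts)))
    (hi : InvM (D ++ TC Ts) m) (hok : ∀ T ∈ Ts, T.Ok ∧ T.Col)
    (hd : ∀ T ∈ Ts, ∀ e ∈ tprs T, ¬e.IsDiag)
    (hcoh : ∀ T ∈ Ts, ∀ T' ∈ Ts, ∀ e ∈ tprs T, e ∈ tprs T' → std T' = std T)
    {q q' : List Pass} (hq : Cir Ts q) (hq' : Cir Ts q') {x y : Pass}
    (c1 : Cyc x (part m y) q) (c2 : Cyc y (part m x) q') :
    ∃ Ts', Ts'.Sublist Ts ∧ Ts'.length < Ts.length ∧ WF (passes (D ++ TC Ts')) ∧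
      ∃ m', InvM (D ++ TC Ts') m' := by
  obtain ⟨T, hT, hqT⟩ := hq
  obtain ⟨T', hT', hqT'⟩ := hq'
  obtain ⟨ok1, col1⟩ := hok T hT
  obtain ⟨ok2, col2⟩ := hok T' hT'
  have mx : x ∈ passes T.code := circle_mem hqT (cyc_mem c1).1
  have my : y ∈ passes T'.code := circle_mem hqT' (cyc_mem c2).1
  have mx' : x ∈ passes (D ++ TC Ts) := by
    rw [passes_append']; exact List.mem_append_right _ (code_mem hT mx)
  have my' : y ∈ passes (D ++ TC Ts) := by
    rw [passes_append']; exact List.mem_append_right _ (code_mem hT' my)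
  have kx := Pool.Agent.Y759.TP2.kap_part hi.2.1 mx'
  have ky := Pool.Agent.Y759.TP2.kap_part hi.2.1 my'
  by_cases hTT : T' = T
  · subst hTT
    exact (no_self ok1 col1 (hd T' hT) hqT hqT' kx ky part_ne part_ne c1 c2).elim
  · -- same colours
    have e1 := adj_mem col1 hqT c1
    have e2 := adj_mem col2 hqT' c2
    rw [ky] at e1
    rw [kx, Sym2.eq_swap] at e2
    have hst : std T' = std T := hcoh T hT T' hT' _ e1 e2
    -- the rest
    obtain ⟨l₁, l₂, rfl⟩ := List.append_of_mem hT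
    have hT'' : T' ∈ l₁ ++ l₂ := by
      rcases List.mem_append.1 hT' with h | h
      · exact List.mem_append_left _ h
      · rcases List.mem_cons.1 h with h | h
        · exact absurd h hTT
        · exact List.mem_append_right _ h
    obtain ⟨k₁, k₂, hk⟩ := List.append_of_mem hT''
    have hperm : (D ++ TC (l₁ ++ T :: l₂)).Perm (T.code ++ (T'.code ++ (D ++ TC (k₁ ++ k₂)))) := by
      refine (perm_TC (D := D)).trans (List.Perm.append_left _ ?_)
      rw [hk]
      exact perm_TC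
    have hi1 : InvM (T.code ++ (T'.code ++ (D ++ TC (k₁ ++ k₂)))) m := invM_perm hperm hi
    have hw1 : WF (passes (T.code ++ (T'.code ++ (D ++ TC (k₁ ++ k₂))))) :=
      WF.perm (passes_perm hperm) hw
    have hne : ∀ p ∈ passes T.code, ∀ p' ∈ passes T'.code, p'.crossing ≠ p.crossing := by
      intro p hp p' hp'
      have := hw1
      rw [passes_append', passes_append'] at this
      exact this.ne_crossing hp (mate_code hp) (List.mem_append_left _ hp')
    -- normal forms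
    obtain ⟨T₁, f1, f2, f3, f4⟩ := normalS hqT c1
    obtain ⟨T₂, g1, g2, g3, g4⟩ := normalS hqT' c2
    have g5 := g4.trans (ts_tjk T₂)
    have hx1 : x ∈ passes T₁.code := (f4.tr.ceq.1 x).1 mx
    -- passes
    have a1 : part m T₁.pa₁ = T₂.tjk.pa₁ := by
      rw [← f2, Pool.Agent.Y759.TP2.part_invol hi.1 my', g3]
      rfl
    have b1 : part m T₁.pb₁ = T₂.tjk.pb₁ := by
      rw [← f3, g2]
      rfl
    have inv1 : InvM (T₁.code ++ (T'.code ++ (D ++ TC (k₁ ++ k₂)))) m := by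
      have := invM_ceq (D := []) (O := T'.code ++ (D ++ TC (k₁ ++ k₂))) f4.tr.ceq
        (by simpa using hi1)
      simpa using this
    have wf1 : WF (passes (T₁.code ++ (T'.code ++ (D ++ TC (k₁ ++ k₂))))) := by
      have := wf_ceq (D := []) (O := T'.code ++ (D ++ TC (k₁ ++ k₂))) f4.tr.ceq
        (by simpa using hw1)
      simpa using this
    have pa_mem : T₁.pa₁ ∈ passes T.code := by
      rw [f4.tr.ceq.1, mem_code]; simp
    have pb_mem : T₁.pb₁ ∈ passes T.code := by
      rw [f4.tr.ceq.1, mem_code]; simp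
    have pa_mem' : T₂.tjk.pa₁ ∈ passes T'.code := by
      rw [g5.tr.ceq.1, mem_code]; simp
    have pb_mem' : T₂.tjk.pb₁ ∈ passes T'.code := by
      rw [g5.tr.ceq.1, mem_code]; simp
    have inT : ∀ p ∈ passes T.code, p ∈ passes (T.code ++ (T'.code ++ (D ++ TC (k₁ ++ k₂)))) := by
      intro p hp; rw [passes_append']; simp [hp]
    obtain ⟨u1, u2, u3, u4⟩ := edge hi1.2.1 (inT _ pa_mem) a1 (hne _ pa_mem _ pa_mem')
    obtain ⟨v1, v2, v3, v4⟩ := edge hi1.2.1 (inT _ pb_mem) b1 (hne _ pb_mem _ pb_mem')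
    have u3' : T₂.tjk.sa = !T₁.sa := by
      have : (!T₂.tjk.sa) = !(!T₁.sa) := u3
      cases h : T₂.tjk.sa <;> cases h' : T₁.sa <;> simp_all
    have v3' : T₂.tjk.sb = !T₁.sb := by
      have : (!T₂.tjk.sb) = !(!T₁.sb) := v3
      cases h : T₂.tjk.sb <;> cases h' : T₁.sb <;> simp_all
    have hdd : kap T₁.pa₁ ≠ kap T₁.pb₁ := by
      intro h
      have h1 : s(kap T₁.pa₁, kap T₁.pb₁) ∈ tprs T := ((f4.tr.prs col1).mem_iff).2 (by simp [tprs])
      exact hd T hT _ h1 (Sym2.mk_isDiag_iff.2 h)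
    obtain ⟨T₃, w1, w2⟩ := exists_mir (m := m) (f4.tr.ok ok1) (g5.tr.ok ok2) (f4.tr.col col1)
      (g5.tr.col col2) hdd (by rw [g5.st ok2 col2, f4.st ok1 col1, hst]) u2 v2 u4 v4 u3' v3'
      (by rw [f1]; simp [Tri.tjk, g1]) u1 v1
    have g6 := g5.trans w1
    have inv2 : InvM (T₁.code ++ (T₃.code ++ (D ++ TC (k₁ ++ k₂)))) m := invM_ceq g6.tr.ceq inv1
    have wf2 : WF (passes (T₁.code ++ (T₃.code ++ (D ++ TC (k₁ ++ k₂))))) := wf_ceq g6.tr.ceq wf1
    obtain ⟨m', hm'⟩ := remove2 wf2 inv2 (f4.tr.col col1) (g6.tr.col col2) w2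
    refine ⟨k₁ ++ k₂, ?_, ?_, ?_, m', hm'⟩
    · have s1 : (k₁ ++ k₂).Sublist (l₁ ++ l₂) := by
        rw [hk]
        exact List.Sublist.append (List.Sublist.refl _) (List.sublist_cons_self _ _)
      exact s1.trans (List.Sublist.append (List.Sublist.refl _) (List.sublist_cons_self _ _))
    · have := congrArg List.length hk
      simp only [List.length_append, List.length_cons] at this ⊢
      omega
    · have := hw1
      rw [passes_append' T.code, passes_append' T'.code] at this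
      exact (this.remove fun p hp => mate_code hp).remove fun p hp => mate_code hp

end Pool.Agent.L0h30.SR
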