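import Mathlib

/-!
# Euler's inequality for ribbon graphs without intersecting cycles

`X` is the set of darts, `ρ` the rotation at the vertices, `σ` leads to the other end of an edge,
`v` is the vertex. The faces are the cycles of `ρ⁻¹ * σ`.
-/

namespace Pool.Agent.L0h30.SR

open Module

section
variable {X V : Type} [Fintype X] [DecidableEq X] [Fintype V] [DecidableEq V]

/-- flows on the edges -/
def SA (σ : Equiv.Perm X) : Submodule ℚ (X → ℚ) where
  carrier := {f | ∀ x, f (σ x) = -f x}
  add_mem' := by
    intro f g hf hg x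
    have h1 := hf x
    have h2 := hg x
    simp only [Pi.add_apply, h1, h2]; ring
  zero_mem' := by intro x; simp
  smul_mem' := by
    intro c f hf x
    have h1 := hf x
    simp only [Pi.smul_apply, h1, smul_eq_mul]; ring

omit [Fintype X] [DecidableEq X] in
theorem mem_SA {σ : Equiv.Perm X} {f : X → ℚ} : f ∈ SA σ ↔ ∀ x, f (σ x) = -f x := Iff.rfl

/-- functions with equal values at the two ends of each edge -/
def SB (σ : Equiv.Perm X) : Submodule ℚ (X → ℚ) where
  carrier := {f | ∀ x, f (σ x) = f x}
  add_mem' := by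
    intro f g hf hg x
    have h1 := hf x
    have h2 := hg x
    simp only [Pi.add_apply, h1, h2]
  zero_mem' := by intro x; simp
  smul_mem' := by
    intro c f hf x
    have h1 := hf x
    simp only [Pi.smul_apply, h1, smul_eq_mul]

/-- functions on the cycles of a permutation -/
def SC (φ : Equiv.Perm X) : Submodule ℚ (X → ℚ) := SB φ

omit [DecidableEq X] in
theorem card_le (σ : Equiv.Perm X) (hσ : ∀ x, σ (σ x) = x) (r : X → ℚ)
    (hr : ∀ x, r x = 1 ∨ r x = -1) (hr' : ∀ x, r (σ x) = -r x) :
    Fintype.card X ≤ 2 * finrank ℚ (SA σ) := by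
  let T : (X → ℚ) →ₗ[ℚ] (X → ℚ) :=
    { toFun := fun f x => f x - f (σ x)
      map_add' := by intro f g; ext x; simp only [Pi.add_apply]; ring
      map_smul' := by
        intro c f; ext x; simp only [Pi.smul_apply, smul_eq_mul, RingHom.id_apply]; ring }
  have h1 : LinearMap.range T ≤ SA σ := by
    rintro _ ⟨f, rfl⟩ x
    change f (σ x) - f (σ (σ x)) = -(f x - f (σ x))
    rw [hσ]; ring
  have h2 : LinearMap.ker T ≤ SB σ := by
    intro f hf x
    have : f x - f (σ x) = 0 := congrFun (LinearMap.mem_ker.1 hf) x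
    linarith
  have h3 : finrank ℚ (SB σ) ≤ finrank ℚ (SA σ) := by
    let M : SB σ →ₗ[ℚ] SA σ :=
      { toFun := fun f => ⟨fun x => r x * f.1 x, fun x => by
          change r (σ x) * f.1 (σ x) = -(r x * f.1 x)
          rw [hr', f.2 x]; ring⟩
        map_add' := by
          intro f g; ext x
          change r x * (f.1 x + g.1 x) = r x * f.1 x + r x * g.1 x
          ring
        map_smul' := by
          intro c f; ext x
          change r x * (c * f.1 x) = c * (r x * f.1 x)
          ring }
    refine LinearMap.finrank_le_finrank_of_injective (f := M) ?_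
    intro f g h
    ext x
    have h1 : r x * f.1 x = r x * g.1 x := congrFun (congrArg Subtype.val h) x
    have h2 : r x ≠ 0 := by rcases hr x with h | h <;> rw [h] <;> norm_num
    exact mul_left_cancel₀ h2 h1
  have h4 := LinearMap.finrank_range_add_finrank_ker T
  rw [Module.finrank_fintype_fun_eq_card] at h4
  have h5 := Submodule.finrank_mono h1
  have h6 := Submodule.finrank_mono h2
  omega

/-- the boundary of a flow -/
def bd (σ : Equiv.Perm X) (v : X → V) : SA σ →ₗ[ℚ] (V → ℚ) where
  toFun := fun f w => ∑ x with v x = w, f.1 x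
  map_add' := by
    intro f g; ext w
    simp only [Pi.add_apply]
    rw [← Finset.sum_add_distrib]; rfl
  map_smul' := by
    intro c f; ext w
    simp only [Pi.smul_apply, smul_eq_mul, RingHom.id_apply]
    rw [Finset.mul_sum]; rfl

omit [DecidableEq X] in
theorem sum_SA {σ : Equiv.Perm X} {f : X → ℚ} (hf : f ∈ SA σ) : ∑ x, f x = 0 := by
  have h1 : ∑ x, f (σ x) = ∑ x, f x := Equiv.sum_comp σ f
  have h2 : ∑ x, f (σ x) = -∑ x, f x := by
    rw [← Finset.sum_neg_distrib]
    exact Finset.sum_congr rfl fun x _ => hf x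
  linarith

omit [DecidableEq X] in
theorem range_bd [Nonempty X] (σ : Equiv.Perm X) (v : X → V) :
    finrank ℚ (LinearMap.range (bd σ v)) + 1 ≤ Fintype.card V := by
  let φ : (V → ℚ) →ₗ[ℚ] ℚ :=
    { toFun := fun c => ∑ w, c w
      map_add' := by intro f g; simp only [Pi.add_apply]; rw [Finset.sum_add_distrib]
      map_smul' := by
        intro c f; simp only [Pi.smul_apply, smul_eq_mul, RingHom.id_apply]
        rw [Finset.mul_sum] }
  have h1 : LinearMap.range (bd σ v) ≤ LinearMap.ker φ := by
    rintro _ ⟨f, rfl⟩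
    rw [LinearMap.mem_ker]
    change ∑ w, ∑ x with v x = w, f.1 x = 0
    rw [Finset.sum_fiberwise]
    exact sum_SA f.2
  have h2 := LinearMap.finrank_range_add_finrank_ker φ
  rw [Module.finrank_fintype_fun_eq_card] at h2
  have h3 := Submodule.finrank_mono h1
  have h4 : 0 < finrank ℚ (LinearMap.range φ) := by
    obtain ⟨x⟩ := ‹Nonempty X›
    have h5 : φ (Pi.single (v x) 1) = 1 := by
      change ∑ w, (Pi.single (v x) 1 : V → ℚ) w = 1
      rw [Finset.sum_pi_single']; simp
    refine Module.finrank_pos_iff_exists_ne_zero.2 ⟨⟨1, ⟨_, h5⟩⟩, ?_⟩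
    intro h
    exact one_ne_zero (congrArg Subtype.val h)
  omega

omit [DecidableEq X] in
theorem finrank_SC [Nonempty X] (φ : Equiv.Perm X) :
    finrank ℚ (SC φ) ≤ Nat.card (Quotient (Equiv.Perm.SameCycle.setoid φ)) := by
  have key : ∀ f ∈ SC φ, ∀ x y, φ.SameCycle x y → f x = f y := by
    intro f hf x y hxy
    have h1 : ∀ x, f (φ x) = f x := hf
    have h2 : ∀ (n : ℕ) x, f ((φ ^ n) x) = f x := by
      intro n
      induction n with
      | zero => intro x; rfl
      | succ n ih => intro x; rw [pow_succ, Equiv.Perm.mul_apply, ih, h1]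
    obtain ⟨n, hn⟩ := hxy.exists_pow_eq'
    obtain ⟨-, hn⟩ := hn
    rw [← hn, h2]
  have : Fintype (Quotient (Equiv.Perm.SameCycle.setoid φ)) := Fintype.ofFinite _
  rw [Nat.card_eq_fintype_card]
  let M : SC φ →ₗ[ℚ] (Quotient (Equiv.Perm.SameCycle.setoid φ) → ℚ) :=
    { toFun := fun f q => f.1 q.out
      map_add' := by intro f g; rfl
      map_smul' := by intro c f; rfl }
  have h := LinearMap.finrank_le_finrank_of_injective (f := M) (by
    intro f g h
    ext x
    have h1 : f.1 (Quotient.mk (Equiv.Perm.SameCycle.setoid φ) x).out =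
        g.1 (Quotient.mk (Equiv.Perm.SameCycle.setoid φ) x).out :=
      congrFun h (Quotient.mk _ x)
    have h2 : φ.SameCycle (Quotient.mk (Equiv.Perm.SameCycle.setoid φ) x).out x :=
      Quotient.exact (Quotient.out_eq (Quotient.mk (Equiv.Perm.SameCycle.setoid φ) x))
    rw [← key f.1 f.2 _ _ h2, ← key g.1 g.2 _ _ h2, h1])
  rwa [Module.finrank_fintype_fun_eq_card] at h

theorem euler [Nonempty X] (ρ σ : Equiv.Perm X) (hσ : ∀ x, σ (σ x) = x) (v : X → V)
    (hρ : ∀ x, v (ρ x) = v x) (r : X → ℚ) (hr : ∀ x, r x = 1 ∨ r x = -1)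
    (hr' : ∀ x, r (σ x) = -r x)
    (hex : ∀ f : X → ℚ, (∀ x, f (σ x) = -f x) → (∀ w, ∑ x with v x = w, f x = 0) →
      ∃ s : X → ℚ, (∀ x, s (ρ x) - s x = f (ρ x)) ∧ ∀ g : X → ℚ, (∀ x, g (σ x) = -g x) →
        (∀ w, ∑ x with v x = w, g x = 0) → ∑ x, g x * (s x - s (σ x) - f x) = 0) :
    Fintype.card X + 4 ≤ 2 * Fintype.card V +
      2 * Nat.card (Quotient (Equiv.Perm.SameCycle.setoid (ρ⁻¹ * σ))) := by
  have h1 := card_le σ hσ r hr hr'
  have h2 := LinearMap.finrank_range_add_finrank_ker (bd σ v)
  have h3 := range_bd σ v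
  have h4 := finrank_SC (ρ⁻¹ * σ)
  let Dd : SC (ρ⁻¹ * σ) →ₗ[ℚ] (X → ℚ) :=
    { toFun := fun u x => u.1 x - u.1 (ρ⁻¹ x)
      map_add' := by
        intro f g; ext x
        change (f.1 x + g.1 x) - (f.1 (ρ⁻¹ x) + g.1 (ρ⁻¹ x)) =
          (f.1 x - f.1 (ρ⁻¹ x)) + (g.1 x - g.1 (ρ⁻¹ x))
        ring
      map_smul' := by
        intro c f; ext x
        change c * f.1 x - c * f.1 (ρ⁻¹ x) = c * (f.1 x - f.1 (ρ⁻¹ x))
        ring }
  have h5 := LinearMap.finrank_range_add_finrank_ker Dd
  have h6 : 0 < finrank ℚ (LinearMap.ker Dd) := by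
    let one : SC (ρ⁻¹ * σ) := ⟨fun _ => 1, fun _ => rfl⟩
    have h6 : one ∈ LinearMap.ker Dd := by
      rw [LinearMap.mem_ker]
      ext x
      change (1 : ℚ) - 1 = 0
      ring
    have h7 : LinearMap.ker Dd ≠ ⊥ := by
      intro h
      rw [h, Submodule.mem_bot] at h6
      obtain ⟨x⟩ := ‹Nonempty X›
      have : one.1 x = 0 := congrFun (congrArg Subtype.val h6) x
      exact one_ne_zero this
    exact Submodule.one_le_finrank_iff.2 h7
  have h7 : finrank ℚ (LinearMap.ker (bd σ v)) ≤ finrank ℚ (LinearMap.range Dd) := by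
    have h8 : (LinearMap.ker (bd σ v)).map (SA σ).subtype ≤ LinearMap.range Dd := by
      rintro _ ⟨f, hf, rfl⟩
      have hf0 : ∀ w, ∑ x with v x = w, f.1 x = 0 := fun w => congrFun (LinearMap.mem_ker.1 hf) w
      obtain ⟨s, hs, hg⟩ := hex f.1 f.2 hf0
      set h : X → ℚ := fun x => s x - s (σ x) - f.1 x with hh
      have hfσ : ∀ x, f.1 (σ x) = -f.1 x := f.2
      have hhσ : ∀ x, h (σ x) = -h x := by
        intro x
        simp only [hh, hσ, hfσ]; ring
      let ℓ : SA σ →ₗ[ℚ] ℚ :=
        { toFun := fun g => ∑ x, g.1 x * h x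
          map_add' := by
            intro a b
            rw [← Finset.sum_add_distrib]
            refine Finset.sum_congr rfl fun x _ => ?_
            change (a.1 x + b.1 x) * h x = _
            ring
          map_smul' := by
            intro c a
            simp only [RingHom.id_apply, smul_eq_mul]
            rw [Finset.mul_sum]
            refine Finset.sum_congr rfl fun x _ => ?_
            change (c * a.1 x) * h x = _
            ring }
      have hℓ : ℓ ∈ LinearMap.range (bd σ v).dualMap := by
        rw [LinearMap.range_dualMap_eq_dualAnnihilator_ker, Submodule.mem_dualAnnihilator]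
        intro g hg'
        exact hg g.1 g.2 fun w => congrFun (LinearMap.mem_ker.1 hg') w
      obtain ⟨c, hc⟩ := hℓ
      have hc' : ∀ g : SA σ, ∑ x, g.1 x * h x = c (bd σ v g) := fun g => by
        have := LinearMap.congr_fun hc g
        exact this.symm
      have hnf : ∀ x, σ x ≠ x := by
        intro x hx
        have h1 := hr' x
        rw [hx] at h1
        rcases hr x with h2 | h2 <;> rw [h2] at h1 <;> norm_num at h1
      have h9 : ∀ x, 2 * h x = c (Pi.single (v x) 1) - c (Pi.single (v (σ x)) 1) := by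
        intro x
        have hgx : (Pi.single x 1 - Pi.single (σ x) 1 : X → ℚ) ∈ SA σ := by
          intro y
          simp only [Pi.sub_apply, Pi.single_apply]
          by_cases e1 : y = x
          · subst e1
            simp [hnf y, (hnf y).symm]
          · by_cases e2 : y = σ x
            · subst e2
              simp [hσ, hnf x, (hnf x).symm]
            · have e3 : σ y ≠ x := fun e => e2 (by rw [← e, hσ])
              have e4 : σ y ≠ σ x := fun e => e1 (σ.injective e)
              simp [e1, e2, e3]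
        have e1 := hc' ⟨_, hgx⟩
        have e2 : ∑ y, (Pi.single x 1 - Pi.single (σ x) 1 : X → ℚ) y * h y = 2 * h x := by
          have : ∀ y, (Pi.single x 1 - Pi.single (σ x) 1 : X → ℚ) y * h y =
              (if y = x then h y else 0) - (if y = σ x then h y else 0) := by
            intro y
            simp only [Pi.sub_apply, Pi.single_apply]
            split_ifs <;> ring
          rw [Finset.sum_congr rfl fun y _ => this y, Finset.sum_sub_distrib,
            Finset.sum_ite_eq', Finset.sum_ite_eq']
          simp only [Finset.mem_univ, if_true, hhσ]; ring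
        have e3 : bd σ v ⟨_, hgx⟩ = Pi.single (v x) 1 - Pi.single (v (σ x)) 1 := by
          ext w
          change ∑ y with v y = w, (Pi.single x 1 - Pi.single (σ x) 1 : X → ℚ) y = _
          simp only [Pi.sub_apply, Pi.single_apply]
          rw [Finset.sum_sub_distrib, Finset.sum_ite_eq', Finset.sum_ite_eq']
          simp only [Finset.mem_filter, Finset.mem_univ, true_and, eq_comm (a := w)]
        change ∑ y, (Pi.single x 1 - Pi.single (σ x) 1 : X → ℚ) y * h y = _ at e1
        rw [e2, e3, map_sub] at e1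
        exact e1
      set C : V → ℚ := fun w => c (Pi.single w 1) with hC
      have h9' : ∀ x, 2 * h x = C (v x) - C (v (σ x)) := h9
      have hρ' : ∀ x, v (ρ⁻¹ x) = v x := by
        intro x
        have := hρ (ρ⁻¹ x)
        rw [show ρ (ρ⁻¹ x) = x from Equiv.apply_symm_apply ρ x] at this
        exact this.symm
      have hs' : ∀ x, s (ρ⁻¹ x) = s x - f.1 x := by
        intro x
        have := hs (ρ⁻¹ x)
        rw [show ρ (ρ⁻¹ x) = x from Equiv.apply_symm_apply ρ x] at this
        linarith
      refine ⟨⟨fun x => s x - C (v x) / 2, ?_⟩, ?_⟩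
      · intro x
        change s (ρ⁻¹ (σ x)) - C (v (ρ⁻¹ (σ x))) / 2 = s x - C (v x) / 2
        rw [hs', hρ', hfσ]
        have e1 := h9' x
        have e2 : h x = s x - s (σ x) - f.1 x := rfl
        linarith
      · ext x
        change (s x - C (v x) / 2) - (s (ρ⁻¹ x) - C (v (ρ⁻¹ x)) / 2) = f.1 x
        rw [hs', hρ']; ring
    have h10 := Submodule.finrank_mono h8
    rwa [Submodule.finrank_map_subtype_eq] at h10
  omega

end

end Pool.Agent.L0h30.SR
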