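import Pool.Agent.L0h30.SR.Orbit
import Pool.Agent.Y874.TP2.Pic

/-! Small faces of planar arrangements of curves described by words. -/

namespace Pool.Agent.L0h30.SR

open Pool.Agent.Y874.TP2 (CycL om)

section
variable {X : Type}

/-- partial sums -/
def ps [DecidableEq X] (f : X → ℚ) : List X → X → ℚ
  | [], _ => 0
  | y :: W, x => f y + if x = y then 0 else ps f W x

/-- the rational version of `om` -/
def omQ (f g : X → ℚ) : List X → ℚ
  | [] => 0
  | x :: W => omQ f g W + f x * (W.map g).sum - g x * (W.map f).sum

theorem omQ_cast (f g : X → ℤ) (W : List X) :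
    omQ (fun x => (f x : ℚ)) (fun x => (g x : ℚ)) W = ((om f g W : ℤ) : ℚ) := by
  induction W with
  | nil => simp [omQ, om]
  | cons x W ih =>
    simp only [omQ, om, ih]
    push_cast
    simp [List.map_map, Function.comp_def]

theorem omQ_smul (a b : ℚ) (f g : X → ℚ) (W : List X) :
    omQ (fun x => a * f x) (fun x => b * g x) W = a * b * omQ f g W := by
  induction W with
  | nil => simp [omQ]
  | cons x W ih =>
    simp only [omQ, ih, List.sum_map_mul_left]
    ring

theorem omQ_congr {f g f' g' : X → ℚ} {W : List X} (h : ∀ x ∈ W, f x = f' x ∧ g x = g' x) :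
    omQ f g W = omQ f' g' W := by
  induction W with
  | nil => simp [omQ]
  | cons x W ih =>
    have h1 := h x (by simp)
    have h2 : W.map f = W.map f' := List.map_congr_left fun y hy => (h y (by simp [hy])).1
    have h3 : W.map g = W.map g' := List.map_congr_left fun y hy => (h y (by simp [hy])).2
    simp only [omQ, ih fun y hy => h y (by simp [hy]), h1.1, h1.2, h2, h3]

variable [DecidableEq X]

theorem ps_cons_self (f : X → ℚ) (x : X) (W : List X) : ps f (x :: W) x = f x := by
  simp [ps]

theorem ps_cons_ne (f : X → ℚ) {x y : X} (W : List X) (h : x ≠ y) :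
    ps f (y :: W) x = f y + ps f W x := by
  simp [ps, h]

theorem ps_sum (f g : X → ℚ) {W : List X} (nd : W.Nodup) :
    (W.map fun x => g x * (2 * ps f W x - f x)).sum = omQ f g W + (W.map f).sum * (W.map g).sum := by
  induction W with
  | nil => simp [omQ]
  | cons y W ih =>
    rw [List.nodup_cons] at nd
    have h1 : (W.map fun x => g x * (2 * ps f (y :: W) x - f x)) =
        W.map fun x => 2 * f y * g x + g x * (2 * ps f W x - f x) := by
      refine List.map_congr_left fun x hx => ?_
      have : x ≠ y := fun e => nd.1 (e ▸ hx)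
      rw [ps_cons_ne f W this]; ring
    rw [List.map_cons, List.sum_cons, h1, List.sum_map_add, List.sum_map_mul_left, ih nd.2,
      ps_cons_self]
    simp only [omQ, List.map_cons, List.sum_cons]
    ring

theorem ps_next (f : X → ℚ) {u v : List X} {r p : X} (nd : (u ++ r :: p :: v).Nodup) :
    ps f (u ++ r :: p :: v) p - ps f (u ++ r :: p :: v) r = f p := by
  induction u with
  | nil =>
    have h : p ≠ r := by
      simp only [List.nil_append, List.nodup_cons, List.mem_cons, not_or] at nd
      exact Ne.symm nd.1.1
    rw [List.nil_append, ps_cons_ne f _ h, ps_cons_self, ps_cons_self]; ring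
  | cons y u ih =>
    have h1 : r ≠ y := by
      simp only [List.cons_append, List.nodup_cons, List.mem_append, List.mem_cons, not_or] at nd
      exact fun e => nd.1.2.1 e.symm
    have h2 : p ≠ y := by
      simp only [List.cons_append, List.nodup_cons, List.mem_append, List.mem_cons, not_or] at nd
      exact fun e => nd.1.2.2.1 e.symm
    have nd' : (u ++ r :: p :: v).Nodup := by
      rw [List.cons_append, List.nodup_cons] at nd
      exact nd.2
    rw [List.cons_append, ps_cons_ne f _ h1, ps_cons_ne f _ h2]
    linarith [ih nd']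

theorem ps_last (f : X → ℚ) {u : List X} {r : X} (nd : (u ++ [r]).Nodup) :
    ps f (u ++ [r]) r = ((u ++ [r]).map f).sum := by
  induction u with
  | nil => simp [ps]
  | cons y u ih =>
    have h1 : r ≠ y := by
      simp only [List.cons_append, List.nodup_cons, List.mem_append, List.mem_cons, not_or] at nd
      exact fun e => nd.1.2.1 e.symm
    have nd' : (u ++ [r]).Nodup := by
      rw [List.cons_append, List.nodup_cons] at nd
      exact nd.2
    rw [List.cons_append, ps_cons_ne f _ h1, ih nd']
    simp

/-- the next element in a cyclic word -/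
theorem next_cases {W : List X} (nd : W.Nodup) {r : X} (hr : r ∈ W) :
    (W = [r] ∧ W.formPerm r = r) ∨ (∃ u v, W = u ++ r :: W.formPerm r :: v) ∨
      ∃ u, W = W.formPerm r :: (u ++ [r]) := by
  obtain ⟨u, v, rfl⟩ := List.append_of_mem hr
  rcases v with _ | ⟨p, v⟩
  · rcases u with _ | ⟨p, u⟩
    · left; simp
    · right; right
      refine ⟨u, ?_⟩
      have := List.formPerm_apply_getLast p (u ++ [r])
      rw [List.getLast_cons (by simp), List.getLast_append_singleton] at this
      rw [List.cons_append, this]
  · right; left
    refine ⟨u, v, ?_⟩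
    have h1 : (u ++ r :: p :: v)[u.length]'(by simp) = r := by simp
    have h2 : (u ++ r :: p :: v)[u.length + 1]'(by simp) = p := by simp
    have := List.formPerm_apply_lt_getElem (u ++ r :: p :: v) nd u.length (by simp)
    rw [h1, h2] at this
    rw [this]

theorem cycL_next {W : List X} (nd : W.Nodup) {r : X} (hr : r ∈ W) (hne : W.formPerm r ≠ r) :
    CycL r (W.formPerm r) W := by
  rcases next_cases nd hr with ⟨-, h⟩ | h | h
  · exact absurd h hne
  · exact Or.inl h
  · exact Or.inr h

theorem ps_formPerm (f : X → ℚ) {W : List X} (nd : W.Nodup) (h0 : (W.map f).sum = 0) {r : X}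
    (hr : r ∈ W) : ps f W (W.formPerm r) - ps f W r = f (W.formPerm r) := by
  rcases next_cases nd hr with ⟨h, h'⟩ | ⟨u, v, h⟩ | ⟨u, h⟩
  · rw [h'] 
    rw [h] at h0
    simp at h0
    rw [h0]; ring
  · generalize W.formPerm r = p at h ⊢
    subst h
    exact ps_next f nd
  · generalize W.formPerm r = p at h ⊢
    have h1 : ps f W r = 0 := by
      rw [h] at nd h0 ⊢
      have := ps_last f (u := p :: u) (r := r) (by simpa using nd)
      rw [List.cons_append] at this
      rw [this]; exact h0
    rw [h1, h, ps_cons_self]; ring

theorem formPerm_ne {W : List X} (nd : W.Nodup) (h2 : 2 ≤ W.length) {r : X} (hr : r ∈ W) :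
    W.formPerm r ≠ r := by
  rcases next_cases nd hr with ⟨h, -⟩ | ⟨u, v, h⟩ | ⟨u, h⟩
  · rw [h] at h2; simp at h2
  · generalize W.formPerm r = p at h ⊢
    rintro rfl
    rw [h, List.nodup_append] at nd
    simp at nd
  · generalize W.formPerm r = p at h ⊢
    rintro rfl
    rw [h] at nd
    simp at nd

/-- the rotation -/
def rot (L : List (List X)) : Equiv.Perm X := (L.map List.formPerm).prod

theorem rot_not_mem {L : List (List X)} {x : X} (h : x ∉ L.flatten) : rot L x = x := by
  induction L with
  | nil => simp [rot]
  | cons V L ih =>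
    rw [List.flatten_cons, List.mem_append, not_or] at h
    have : rot (V :: L) x = V.formPerm (rot L x) := by simp [rot]
    rw [this, ih h.2, List.formPerm_apply_of_notMem h.1]

theorem rot_mem {L : List (List X)} (nd : L.flatten.Nodup) {W : List X} (hW : W ∈ L) {x : X}
    (hx : x ∈ W) : rot L x = W.formPerm x := by
  induction L with
  | nil => simp at hW
  | cons V L ih =>
    have e : rot (V :: L) x = V.formPerm (rot L x) := by simp [rot]
    rw [List.flatten_cons, List.nodup_append] at nd
    rcases List.mem_cons.1 hW with rfl | hW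
    · rw [e, rot_not_mem]
      intro h
      exact nd.2.2 x hx x h rfl
    · rw [e, ih nd.2.1 hW, List.formPerm_apply_of_notMem]
      intro h
      exact nd.2.2 _ h _ (List.mem_flatten.2 ⟨W, hW, List.formPerm_apply_mem_of_mem hx⟩) rfl

end

end Pool.Agent.L0h30.SR
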