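import Pool.Agent.L0h30.SR.Face

/-! Small faces of planar arrangements of curves described by words: the main lemma. -/

namespace Pool.Agent.L0h30.SR

open Pool.Agent.Y874.TP2 (CycL om)

section
variable {X : Type} [DecidableEq X]

theorem exists_mult (l : List X) (f : X → ℚ) :
    ∃ N : ℤ, N ≠ 0 ∧ ∃ f' : X → ℤ, (∀ x ∈ l, (f' x : ℚ) = N * f x) ∧ ∀ x, x ∉ l → f' x = 0 := by
  have key : ∃ N : ℤ, N ≠ 0 ∧ ∀ x ∈ l, ∃ k : ℤ, (k : ℚ) = N * f x := by
    induction l with
    | nil => exact ⟨1, one_ne_zero, by simp⟩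
    | cons y l ih =>
      obtain ⟨N, hN, h⟩ := ih
      refine ⟨N * (f y).den, mul_ne_zero hN (by exact_mod_cast (f y).den_nz), fun x hx => ?_⟩
      rcases List.mem_cons.1 hx with rfl | hx
      · refine ⟨N * (f x).num, ?_⟩
        have : (f x) * (f x).den = (f x).num := Rat.mul_den_eq_num _
        push_cast
        rw [← this]; ring
      · obtain ⟨k, hk⟩ := h x hx
        refine ⟨k * (f y).den, ?_⟩
        push_cast
        rw [hk]; ring
  obtain ⟨N, hN, h⟩ := key
  refine ⟨N, hN, fun x => if h' : x ∈ l then (h x h').choose else 0, fun x hx => ?_, fun x hx => ?_⟩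
  · simp only [hx, dif_pos]
    exact (h x hx).choose_spec
  · simp [hx]

/-- sums over the members of a list -/
theorem sum_sub {l : List X} (nd : l.Nodup) (F : X → ℚ) :
    ∑ y : {x // x ∈ l}, F y.1 = (l.map F).sum := by
  rw [← List.sum_toFinset F nd]
  refine (Finset.sum_subtype l.toFinset (fun x => by simp) F).symm

theorem sum_subN {l : List X} (nd : l.Nodup) (F : X → ℕ) :
    ∑ y : {x // x ∈ l}, F y.1 = (l.map F).sum := by
  rw [← List.sum_toFinset F nd]
  refine (Finset.sum_subtype l.toFinset (fun x => by simp) F).symm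

omit [DecidableEq X] in
theorem uniq_word {L : List (List X)} (nd : L.flatten.Nodup) :
    ∀ w ∈ L, ∀ w' ∈ L, ∀ x, x ∈ w → x ∈ w' → w = w' := by
  induction L with
  | nil => intro w hw; simp at hw
  | cons V L ih =>
    rw [List.flatten_cons, List.nodup_append] at nd
    intro w hw w' hw' x hx hx'
    rcases List.mem_cons.1 hw with h1 | h1 <;> rcases List.mem_cons.1 hw' with h2 | h2
    · rw [h1, h2]
    · subst h1
      exact absurd rfl (nd.2.2 x hx x (List.mem_flatten.2 ⟨w', h2, hx'⟩))
    · subst h2
      exact absurd rfl (nd.2.2 x hx' x (List.mem_flatten.2 ⟨w, h1, hx⟩))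
    · exact ih nd.2.1 w h1 w' h2 x hx hx'

/-- small faces -/
theorem faces (W : List X) (Q : List (List X)) (σ : X → X) (sg : X → ℤ)
    (hW : W ≠ []) (nd : (W ++ Q.flatten).Nodup) (h4 : ∀ q ∈ Q, q.length = 4)
    (hσ : ∀ x ∈ W ++ Q.flatten, σ x ∈ W ++ Q.flatten ∧ σ (σ x) = x ∧ sg (σ x) = -sg x ∧
      (sg x = 1 ∨ sg x = -1))
    (om0 : ∀ f g : X → ℤ, (∀ x, x ∉ W ++ Q.flatten → f x = 0 ∧ g x = 0) →
      (∀ x ∈ W ++ Q.flatten, f (σ x) = -f x ∧ g (σ x) = -g x) →
      (∀ q ∈ W :: Q, (q.map f).sum = 0 ∧ (q.map g).sum = 0) →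
      ((W :: Q).map (om f g)).sum = 0) :
    (∃ w ∈ W :: Q, ∃ x ∈ w, CycL x (σ x) w) ∨
    (∃ q ∈ Q, ∃ x y, CycL x (σ y) W ∧ CycL y (σ x) q) ∨
    (∃ q ∈ Q, ∃ q' ∈ Q, ∃ x y, x ≠ y ∧ CycL x (σ y) q ∧ CycL y (σ x) q') ∨
    ∃ q₁ ∈ Q, ∃ q₂ ∈ Q, ∃ q₃ ∈ Q, ∃ x y z, CycL x (σ z) q₁ ∧ CycL y (σ x) q₂ ∧
      CycL z (σ y) q₃ := by
  classical
  set L : List (List X) := W :: Q with hL
  have hLf : L.flatten = W ++ Q.flatten := by rw [hL, List.flatten_cons]
  rw [← hLf] at nd hσ om0
  let Y := {x // x ∈ L.flatten}
  have hWY : Nonempty Y := by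
    obtain ⟨x, hx⟩ := List.exists_mem_of_ne_nil W hW
    exact ⟨⟨x, List.mem_flatten.2 ⟨W, by simp [hL], hx⟩⟩⟩
  have hwd : ∀ y : Y, ∃ w : {w // w ∈ L.toFinset}, y.1 ∈ w.1 := by
    rintro ⟨x, hx⟩
    obtain ⟨w, hw, hxw⟩ := List.mem_flatten.1 hx
    exact ⟨⟨w, by simpa using hw⟩, hxw⟩
  choose v hv using hwd
  have hmemL : ∀ w : {w // w ∈ L.toFinset}, w.1 ∈ L := fun w => List.mem_toFinset.1 w.2
  have ndw : ∀ w ∈ L, w.Nodup := fun w hw => (List.nodup_flatten.1 nd).1 w hw
  have huniq : ∀ w ∈ L, ∀ w' ∈ L, ∀ x, x ∈ w → x ∈ w' → w = w' := uniq_word nd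
  have hvu : ∀ (y : Y) w, (hw : w ∈ L) → y.1 ∈ w → (v y).1 = w := fun y w hw hy =>
    huniq _ (hmemL _) w hw y.1 (hv y) hy
  have hrotmem : ∀ x, x ∈ L.flatten → rot L x ∈ L.flatten := by
    intro x hx
    obtain ⟨w, hw, hxw⟩ := List.mem_flatten.1 hx
    rw [rot_mem nd hw hxw]
    exact List.mem_flatten.2 ⟨w, hw, List.formPerm_apply_mem_of_mem hxw⟩
  have hrotiff : ∀ x, rot L x ∈ L.flatten ↔ x ∈ L.flatten := by
    intro x
    refine ⟨fun h => ?_, hrotmem x⟩
    by_contra hx
    rw [rot_not_mem hx] at h
    exact hx h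
  let ρ : Equiv.Perm Y := (rot L).subtypePerm hrotiff
  let τ : Equiv.Perm Y :=
    { toFun := fun y => ⟨σ y.1, (hσ y.1 y.2).1⟩
      invFun := fun y => ⟨σ y.1, (hσ y.1 y.2).1⟩
      left_inv := fun y => Subtype.ext (hσ y.1 y.2).2.1
      right_inv := fun y => Subtype.ext (hσ y.1 y.2).2.1 }
  have hρ1 : ∀ y : Y, (ρ y).1 = rot L y.1 := fun y => rfl
  have hτ1 : ∀ y : Y, (τ y).1 = σ y.1 := fun y => rfl
  have hτ : ∀ y, τ (τ y) = y := fun y => Subtype.ext (hσ y.1 y.2).2.1
  have hρv : ∀ y, v (ρ y) = v y := by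
    intro y
    refine Subtype.ext (hvu _ _ (hmemL _) ?_)
    rw [hρ1, rot_mem nd (hmemL _) (hv y)]
    exact List.formPerm_apply_mem_of_mem (hv y)
  have hfib : ∀ (F : X → ℚ) (w : {w // w ∈ L.toFinset}),
      ∑ y with v y = w, F y.1 = (w.1.map F).sum := by
    intro F w
    rw [← List.sum_toFinset F (ndw _ (hmemL w))]
    refine Finset.sum_bij (fun y _ => y.1) ?_ ?_ ?_ ?_
    · intro y hy
      simp only [Finset.mem_filter, Finset.mem_univ, true_and] at hy
      rw [List.mem_toFinset, ← hy]
      exact hv y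
    · intro a _ b _ h
      exact Subtype.ext h
    · intro x hx
      rw [List.mem_toFinset] at hx
      refine ⟨⟨x, List.mem_flatten.2 ⟨w.1, hmemL w, hx⟩⟩, ?_, rfl⟩
      simp only [Finset.mem_filter, Finset.mem_univ, true_and]
      exact Subtype.ext (hvu _ _ (hmemL w) hx)
    · intro _ _; rfl
  have heul := euler ρ τ hτ v hρv (fun y => (sg y.1 : ℚ))
    (fun y => by rcases (hσ y.1 y.2).2.2.2 with h | h <;> rw [h] <;> simp)
    (fun y => by rw [hτ1, (hσ y.1 y.2).2.2.1]; push_cast; ring) (by
      intro f hf hf0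
      -- extension by zero
      let F : X → ℚ := fun x => if h : x ∈ L.flatten then f ⟨x, h⟩ else 0
      have hF : ∀ y : Y, F y.1 = f y := fun y => by
        change (if h : y.1 ∈ L.flatten then f ⟨y.1, h⟩ else 0) = f y
        rw [dif_pos y.2]
      have hF0 : ∀ w ∈ L, (w.map F).sum = 0 := by
        intro w hw
        have := hf0 ⟨w, by simpa using hw⟩
        rw [← hfib F ⟨w, by simpa using hw⟩]
        rw [← this]
        exact Finset.sum_congr rfl fun y _ => hF y
      refine ⟨fun y => ps F (v y).1 y.1, fun y => ?_, fun g hg hg0 => ?_⟩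
      · change ps F (v (ρ y)).1 (ρ y).1 - ps F (v y).1 y.1 = f (ρ y)
        rw [hρv, ← hF, hρ1, rot_mem nd (hmemL _) (hv y)]
        exact ps_formPerm F (ndw _ (hmemL _)) (hF0 _ (hmemL _)) (hv y)
      · let G : X → ℚ := fun x => if h : x ∈ L.flatten then g ⟨x, h⟩ else 0
        have hG : ∀ y : Y, G y.1 = g y := fun y => by
          change (if h : y.1 ∈ L.flatten then g ⟨y.1, h⟩ else 0) = g y
          rw [dif_pos y.2]
        have hG0 : ∀ w ∈ L, (w.map G).sum = 0 := by
          intro w hw
          have := hg0 ⟨w, by simpa using hw⟩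
          rw [← hfib G ⟨w, by simpa using hw⟩]
          rw [← this]
          exact Finset.sum_congr rfl fun y _ => hG y
        -- the sum in terms of the words
        have e1 : ∑ y : Y, g y * (ps F (v y).1 y.1 - ps F (v (τ y)).1 (τ y).1 - f y) =
            ∑ y : Y, g y * (2 * ps F (v y).1 y.1 - f y) := by
          have e2 : ∑ y : Y, g y * ps F (v (τ y)).1 (τ y).1 =
              -∑ y : Y, g y * ps F (v y).1 y.1 := by
            rw [← Equiv.sum_comp τ fun y => g y * ps F (v y).1 y.1, ← Finset.sum_neg_distrib]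
            refine Finset.sum_congr rfl fun y _ => ?_
            rw [hg]; ring
          have e3 : ∑ y : Y, g y * (ps F (v y).1 y.1 - ps F (v (τ y)).1 (τ y).1 - f y) =
              ∑ y : Y, g y * ps F (v y).1 y.1 - ∑ y : Y, g y * ps F (v (τ y)).1 (τ y).1 -
                ∑ y : Y, g y * f y := by
            rw [← Finset.sum_sub_distrib, ← Finset.sum_sub_distrib]
            exact Finset.sum_congr rfl fun y _ => by ring
          have e4 : ∑ y : Y, g y * (2 * ps F (v y).1 y.1 - f y) =
              ∑ y : Y, g y * ps F (v y).1 y.1 + ∑ y : Y, g y * ps F (v y).1 y.1 -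
                ∑ y : Y, g y * f y := by
            rw [← Finset.sum_add_distrib, ← Finset.sum_sub_distrib]
            exact Finset.sum_congr rfl fun y _ => by ring
          rw [e3, e4, e2]; ring
        rw [e1]
        have e5 : ∑ y : Y, g y * (2 * ps F (v y).1 y.1 - f y) =
            ∑ w : {w // w ∈ L.toFinset}, omQ F G w.1 := by
          rw [← Finset.sum_fiberwise Finset.univ v]
          refine Finset.sum_congr rfl fun w _ => ?_
          have e6 := hfib (fun x => G x * (2 * ps F w.1 x - F x)) w
          rw [ps_sum F G (ndw _ (hmemL w)), hF0 _ (hmemL w), zero_mul, add_zero] at e6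
          rw [← e6]
          refine Finset.sum_congr rfl fun y hy => ?_
          simp only [Finset.mem_filter, Finset.mem_univ, true_and] at hy
          rw [hF, hG, hy]
        have e7 : ∑ w : {w // w ∈ L.toFinset}, omQ F G w.1 = ∑ w ∈ L.toFinset, omQ F G w :=
          (Finset.sum_subtype L.toFinset (fun x => Iff.rfl) (fun w => omQ F G w)).symm
        have e8 : ∑ w ∈ L.toFinset, omQ F G w = 0 := by
          obtain ⟨N, hN, f', f1, f2⟩ := exists_mult L.flatten F
          obtain ⟨M, hM, g', g1, g2⟩ := exists_mult L.flatten G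
          have hsum : ∀ w ∈ L, (w.map f').sum = 0 ∧ (w.map g').sum = 0 := by
            intro w hw
            constructor
            · have h1 : (((w.map f').sum : ℤ) : ℚ) = N * (w.map F).sum := by
                rw [← List.sum_map_mul_left, Int.cast_list_sum, List.map_map]
                congr 1
                refine List.map_congr_left fun x hx => ?_
                exact f1 x (List.mem_flatten.2 ⟨w, hw, hx⟩)
              rw [hF0 w hw, mul_zero] at h1
              exact_mod_cast h1
            · have h1 : (((w.map g').sum : ℤ) : ℚ) = M * (w.map G).sum := by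
                rw [← List.sum_map_mul_left, Int.cast_list_sum, List.map_map]
                congr 1
                refine List.map_congr_left fun x hx => ?_
                exact g1 x (List.mem_flatten.2 ⟨w, hw, hx⟩)
              rw [hG0 w hw, mul_zero] at h1
              exact_mod_cast h1
          have hfl : ∀ x ∈ L.flatten, f' (σ x) = -f' x ∧ g' (σ x) = -g' x := by
            intro x hx
            have hx' := (hσ x hx).1
            have k1 : F (σ x) = -F x := by
              have := hf ⟨x, hx⟩
              rw [← hF, ← hF] at this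
              exact this
            have k2 : G (σ x) = -G x := by
              have := hg ⟨x, hx⟩
              rw [← hG, ← hG] at this
              exact this
            constructor
            · have h1 : ((f' (σ x) : ℤ) : ℚ) = ((-f' x : ℤ) : ℚ) := by
                push_cast
                rw [f1 _ hx', f1 _ hx, k1]; ring
              exact_mod_cast h1
            · have h1 : ((g' (σ x) : ℤ) : ℚ) = ((-g' x : ℤ) : ℚ) := by
                push_cast
                rw [g1 _ hx', g1 _ hx, k2]; ring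
              exact_mod_cast h1
          have h0 := om0 f' g' (fun x hx => ⟨f2 x hx, g2 x hx⟩) hfl hsum
          -- empty words do not contribute
          have hz : ∀ l : List (List X), (∀ w ∈ l, w ∈ L) → l.flatten.Nodup →
              ∑ w ∈ l.toFinset, omQ F G w = (l.map (omQ F G)).sum := by
            intro l
            induction l with
            | nil => intro _ _; simp
            | cons w l ih =>
              intro hl hnd
              rw [List.toFinset_cons, List.map_cons, List.sum_cons]
              have ih' := ih (fun w hw => hl w (by simp [hw])) (by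
                rw [List.flatten_cons, List.nodup_append] at hnd
                exact hnd.2.1)
              by_cases hw : w ∈ l.toFinset
              · rw [Finset.insert_eq_of_mem hw, ih']
                have : w = [] := by
                  rcases w with _ | ⟨x, w⟩
                  · rfl
                  · exfalso
                    rw [List.flatten_cons, List.nodup_append] at hnd
                    exact hnd.2.2 x (by simp) x (List.mem_flatten.2 ⟨_, by simpa using hw, by simp⟩) rfl
                rw [this]; simp [omQ]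
              · rw [Finset.sum_insert hw, ih']
          rw [hz L (fun w hw => hw) nd]
          have h2 : ((L.map (om f' g')).sum : ℚ) = N * M * (L.map (omQ F G)).sum := by
            rw [← List.sum_map_mul_left, Int.cast_list_sum, List.map_map]
            congr 1
            refine List.map_congr_left fun w hw => ?_
            have h3 : omQ (fun x => (f' x : ℚ)) (fun x => (g' x : ℚ)) w =
                omQ (fun x => (N : ℚ) * F x) (fun x => (M : ℚ) * G x) w :=
              omQ_congr fun x hx => ⟨f1 x (List.mem_flatten.2 ⟨w, hw, hx⟩),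
                g1 x (List.mem_flatten.2 ⟨w, hw, hx⟩)⟩
            rw [Function.comp_apply, ← omQ_cast, h3, omQ_smul]
          rw [h0] at h2
          have h3 : ((N : ℚ) * M) ≠ 0 := mul_ne_zero (by exact_mod_cast hN) (by exact_mod_cast hM)
          have h4 : (N : ℚ) * M * (L.map (omQ F G)).sum = 0 := by rw [← h2]; simp
          exact (mul_eq_zero.1 h4).resolve_left h3
        rw [e5, e7, e8])
  have hcV : Fintype.card {w // w ∈ L.toFinset} ≤ Q.length + 1 := by
    rw [Fintype.card_coe]
    exact (List.toFinset_card_le L).trans (by simp [hL])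
  have hlen : L.flatten.length = W.length + 4 * Q.length := by
    rw [hLf, List.length_append]
    congr 1
    have : ∀ l : List (List X), (∀ q ∈ l, q.length = 4) → l.flatten.length = 4 * l.length := by
      intro l
      induction l with
      | nil => simp
      | cons q l ih =>
        intro h
        rw [List.flatten_cons, List.length_append, ih fun q hq => h q (by simp [hq]),
          h q (by simp), List.length_cons]
        ring
    exact this Q h4
  have hcY : Fintype.card Y = W.length + 4 * Q.length := by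
    rw [← hlen]
    have := sum_subN nd fun _ => 1
    rw [List.map_const', List.sum_replicate, smul_eq_mul, mul_one, Finset.sum_const,
      Finset.card_univ, smul_eq_mul, mul_one] at this
    exact this
  let wt : Y → ℕ := fun y => if y.1 ∈ W then 2 else 1
  have hwt : ∑ y, wt y = 2 * W.length + 4 * Q.length := by
    have h1 := sum_subN nd fun x => if x ∈ W then 2 else 1
    have h2 : (L.flatten.map fun x => if x ∈ W then 2 else 1).sum =
        2 * W.length + 4 * Q.length := by
      rw [hLf, List.map_append, List.sum_append]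
      have h3 : (W.map fun x => if x ∈ W then 2 else 1) = W.map fun _ => 2 :=
        List.map_congr_left fun x hx => by simp [hx]
      have h5 : (Q.flatten.map fun x => if x ∈ W then 2 else 1) = Q.flatten.map fun _ => 1 := by
        refine List.map_congr_left fun x hx => ?_
        rw [if_neg]
        intro hxW
        rw [hLf, List.nodup_append] at nd
        exact nd.2.2 x hxW x hx rfl
      rw [h3, h5]
      have h6 : Q.flatten.length = 4 * Q.length := by
        rw [hLf, List.length_append] at hlen
        omega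
      rw [List.map_const', List.map_const', List.sum_replicate, List.sum_replicate, h6]
      simp [mul_comm]
    rw [← h2]
    exact h1
  have hsmall := small_orbit (ρ⁻¹ * τ) wt (fun y => by
    simp only [wt]; split_ifs <;> simp) (by omega)
  -- translation
  have hW_or : ∀ y : Y, y.1 ∈ W ∨ ∃ q ∈ Q, y.1 ∈ q := by
    intro y
    rcases List.mem_cons.1 (hmemL (v y)) with h | h
    · left; rw [← h]; exact hv y
    · right; exact ⟨_, h, hv y⟩
  have hρs : ∀ y z : Y, ρ y = τ z → ∀ w ∈ L, y.1 ∈ w → w.formPerm y.1 = σ z.1 := by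
    intro y z h w hw hy
    rw [← rot_mem nd hw hy, ← hρ1, h]
    rfl
  have hφ : ∀ y z : Y, (ρ⁻¹ * τ) y = z → ρ z = τ y := by
    intro y z h
    rw [← h]
    exact Equiv.apply_symm_apply ρ (τ y)
  have hQne : ∀ q ∈ Q, ∀ x ∈ q, q.formPerm x ≠ x := fun q hq x hx =>
    formPerm_ne (ndw q (by simp [hL, hq])) (by rw [h4 q hq]; norm_num) hx
  have hσne : ∀ y : Y, σ y.1 ≠ y.1 := by
    intro y h
    have h1 := (hσ y.1 y.2).2.2.1
    rw [h] at h1
    rcases (hσ y.1 y.2).2.2.2 with h2 | h2 <;> rw [h2] at h1 <;> norm_num at h1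
  have hwQ : ∀ y : Y, wt y = 1 → ∃ q ∈ Q, y.1 ∈ q := by
    intro y hy
    rcases hW_or y with h | h
    · simp [wt, h] at hy
    · exact h
  obtain ⟨x, hx⟩ := hsmall
  rcases hx with hx | ⟨hx1, hx2, hx3⟩ | ⟨hx1, hx2, hx3, hx4⟩
  · left
    have h1 := hρs x x (hφ x x hx) (v x).1 (hmemL _) (hv x)
    refine ⟨(v x).1, hmemL _, x.1, hv x, ?_⟩
    rw [← h1]
    exact cycL_next (ndw _ (hmemL _)) (hv x) (by rw [h1]; exact hσne x)
  · set y : Y := (ρ⁻¹ * τ) x with hy
    have h1 : ρ y = τ x := hφ x y rfl
    have h2 : ρ x = τ y := hφ y x hx2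
    -- one of the two lies in `Q`
    have hone : (∃ q ∈ Q, y.1 ∈ q) ∨ ∃ q ∈ Q, x.1 ∈ q := by
      by_contra hcon
      rw [not_or] at hcon
      have k1 : y.1 ∈ W := (hW_or y).resolve_right hcon.1
      have k2 : x.1 ∈ W := (hW_or x).resolve_right hcon.2
      simp [wt, k1, k2] at hx3
    have hne : σ x.1 ≠ y.1 := by
      intro h
      have h' : σ y.1 = x.1 := by rw [← h]; exact (hσ x.1 x.2).2.1
      rcases hone with ⟨q, hq, hyq⟩ | ⟨q, hq, hxq⟩
      · have := hρs y x h1 q (by simp [hL, hq]) hyq
        exact hQne q hq _ hyq (by rw [this, h])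
      · have := hρs x y h2 q (by simp [hL, hq]) hxq
        exact hQne q hq _ hxq (by rw [this, h'])
    have hne' : σ y.1 ≠ x.1 := by
      intro h
      exact hne (by rw [← h]; exact (hσ y.1 y.2).2.1)
    have cx : CycL x.1 (σ y.1) (v x).1 := by
      have k := hρs x y h2 (v x).1 (hmemL _) (hv x)
      rw [← k]
      exact cycL_next (ndw _ (hmemL _)) (hv x) (by rw [k]; exact hne')
    have cy : CycL y.1 (σ x.1) (v y).1 := by
      have k := hρs y x h1 (v y).1 (hmemL _) (hv y)
      rw [← k]
      exact cycL_next (ndw _ (hmemL _)) (hv y) (by rw [k]; exact hne)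
    have hxy : x.1 ≠ y.1 := fun h => hx1 (Subtype.ext h.symm)
    rcases List.mem_cons.1 (hmemL (v x)) with ex | ex
    · rcases List.mem_cons.1 (hmemL (v y)) with ey | ey
      · exfalso
        have k1 : x.1 ∈ W := by rw [← ex]; exact hv x
        have k2 : y.1 ∈ W := by rw [← ey]; exact hv y
        simp [wt, k1, k2] at hx3
      · right; left
        rw [ex] at cx
        exact ⟨_, ey, x.1, y.1, cx, cy⟩
    · rcases List.mem_cons.1 (hmemL (v y)) with ey | ey
      · right; left
        rw [ey] at cy
        exact ⟨_, ex, y.1, x.1, cy, cx⟩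
      · right; right; left
        exact ⟨_, ex, _, ey, x.1, y.1, hxy, cx, cy⟩
  · right; right; right
    set y : Y := (ρ⁻¹ * τ) x with hy
    set z : Y := (ρ⁻¹ * τ) y with hz
    have h1 : ρ y = τ x := hφ x y rfl
    have h2 : ρ z = τ y := hφ y z rfl
    have h3 : ρ x = τ z := hφ z x hx1
    obtain ⟨q₁, hq₁, hxq⟩ := hwQ x hx2
    obtain ⟨q₂, hq₂, hyq⟩ := hwQ y hx3
    obtain ⟨q₃, hq₃, hzq⟩ := hwQ z hx4
    refine ⟨q₁, hq₁, q₂, hq₂, q₃, hq₃, x.1, y.1, z.1, ?_, ?_, ?_⟩
    · rw [← hρs x z h3 q₁ (by simp [hL, hq₁]) hxq]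
      exact cycL_next (ndw _ (by simp [hL, hq₁])) hxq (hQne q₁ hq₁ _ hxq)
    · rw [← hρs y x h1 q₂ (by simp [hL, hq₂]) hyq]
      exact cycL_next (ndw _ (by simp [hL, hq₂])) hyq (hQne q₂ hq₂ _ hyq)
    · rw [← hρs z y h2 q₃ (by simp [hL, hq₃]) hzq]
      exact cycL_next (ndw _ (by simp [hL, hq₃])) hzq (hQne q₃ hq₃ _ hzq)

end

end Pool.Agent.L0h30.SR
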