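import Pool.Agent.L0h30.SR.BigonB
import Pool.Agent.R800.BT.Final

/-! Diagrams with triple points without triangles. -/

namespace Pool.Agent.L0h30.SR

open Pool.Agent.Y468.SR
open Pool.Agent.Y874.TP hiding S_REID S_REN S_THREE S_OUT S_CUT S_JUNC CStep CReid CM InvM InvC Inv3
  creid_after same_facts invM_ceq invM_perm
open Pool.Agent.Y874.TP2

/-- no three curves cross one another, and two curves crossing at two triple points cross in the
same way -/
structure TF (Ts : List Tri) : Prop where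
  tri : ∀ α β γ, s(α, β) ∈ Ts.flatMap tprs → s(β, γ) ∈ Ts.flatMap tprs →
    s(γ, α) ∈ Ts.flatMap tprs → False
  coh : ∀ T ∈ Ts, ∀ T' ∈ Ts, ∀ e ∈ tprs T, e ∈ tprs T' → std T' = std T

theorem TF.sub {Ts Ts' : List Tri} (h : TF Ts) (hs : ∀ T ∈ Ts', T ∈ Ts) : TF Ts' := by
  have key : ∀ e ∈ Ts'.flatMap tprs, e ∈ Ts.flatMap tprs := by
    intro e he
    obtain ⟨T, hT, he⟩ := List.mem_flatMap.1 he
    exact List.mem_flatMap.2 ⟨T, hs T hT, he⟩
  exact ⟨fun α β γ h1 h2 h3 => h.tri α β γ (key _ h1) (key _ h2) (key _ h3),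
    fun T hT T' hT' => h.coh T (hs T hT) T' (hs T' hT')⟩

theorem her_TF : Her TF := by
  refine ⟨fun Ts Ts' hs h => ?_, fun l₁ T l₂ h => h.sub fun T' hT' => ?_⟩
  · have key : ∀ T' ∈ Ts', ∃ T ∈ Ts, tprs T' = tprs T ∧ std T' = std T := by
      clear h
      induction hs with
      | nil => intro T' hT'; exact absurd hT' (by simp)
      | @cons T₁ T₂ l l' h1 _ ih =>
        intro T' hT'
        rcases List.mem_cons.1 hT' with e | hT'
        · subst e
          obtain ⟨i, j, k, rfl⟩ := h1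
          exact ⟨T₂, by simp, rfl, rfl⟩
        · obtain ⟨T, hT, h2⟩ := ih T' hT'
          exact ⟨T, by simp [hT], h2⟩
    have key2 : ∀ e ∈ Ts'.flatMap tprs, e ∈ Ts.flatMap tprs := by
      intro e he
      obtain ⟨T', hT', he⟩ := List.mem_flatMap.1 he
      obtain ⟨T, hT, h1, -⟩ := key T' hT'
      exact List.mem_flatMap.2 ⟨T, hT, h1 ▸ he⟩
    refine ⟨fun α β γ h1 h2 h3 => h.tri α β γ (key2 _ h1) (key2 _ h2) (key2 _ h3), ?_⟩
    intro T₁ h1 T₂ h2 e e1 e2
    obtain ⟨S₁, g1, g2, g3⟩ := key T₁ h1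
    obtain ⟨S₂, g4, g5, g6⟩ := key T₂ h2
    rw [g3, g6]
    exact h.coh S₁ g1 S₂ g4 e (g2 ▸ e1) (g5 ▸ e2)
  · rcases List.mem_append.1 hT' with h' | h'
    · exact List.mem_append_left _ h'
    · exact List.mem_append_right _ (List.mem_cons_of_mem _ h')

variable {Φ : List Tri → Prop}

/-- reducing after a rotation of a component -/
theorem red_rotate {D : Code} {Ts : List Tri} (hD : Classical D) {w₁ w₂ : List Pass} {b : ℕ}
    {R : Code} (hperm : D.Perm ((w₁ ++ w₂, b) :: R)) (h : RedP Φ ((w₂ ++ w₁, b) :: R) Ts) :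
    RedP Φ D Ts := by
  obtain ⟨D', Ts', h1, h2, h3, h4, h5⟩ := h
  have c1 := classical_perm hperm hD
  have c2 : Classical ((w₂ ++ w₁, b) :: R) := classical_rotate c1
  refine ⟨D', Ts', ?_, h2, h3, h4, Movie.head hD c1 (Step.perm _ _ hperm) (Movie.head c1 c2
    (Step.rotate w₁ w₂ b R) h5)⟩
  have e1 : (passes D).length = (passes ((w₂ ++ w₁, b) :: R)).length := by
    rw [(passes_perm hperm).length_eq, passes_cons, passes_cons]
    simp only [List.length_append]
    omega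
  rw [e1]
  exact h1

/-- A corner of a component: two passages following one another which cancel or belong to a corner of
a triple point. -/
def Corner (Ts : List Tri) (m : ℕ → ℕ) (p r : Pass) : Prop :=
  Canc m p r ∨ ∃ T ∈ Ts, ∃ W ∈ [T.wi, T.wj, T.wk], ∃ p' r' : Pass, Cyc r' p' W ∧
    p'.crossing = m p.crossing ∧ p'.isOver = p.isOver ∧
    r'.crossing = m r.crossing ∧ r'.isOver = r.isOver

theorem red_linear (hΦ : Her Φ) {D : Code} {Ts : List Tri} {m : ℕ → ℕ} (hD : Classical D)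
    (hn : (D.map Prod.snd).Nodup) (h3 : InvP Φ D Ts) (hm : InvM (D ++ TC Ts) m)
    {C : List Pass × ℕ} (hC : C ∈ D) {a c : List Pass} {p r : Pass} (hpr : C.1 = a ++ p :: r :: c)
    (hcase : Corner Ts m p r) : RedP Φ D Ts := by
  rcases hcase with (⟨k1, k2, k3⟩ | ⟨k1, k2, k3⟩) | ⟨T, hT, W, hW, p', r', hcyc, e1, e2, e3, e4⟩
  · refine caseA hΦ RD.reid hD hn h3 hC hpr k2 k3 ?_
    by_contra h0
    refine (hm.2.1 p ?_).2 h0 k1
    rw [passes_append']
    exact List.mem_append_left _ (mem_passes.2 ⟨C, hC, by simp [hpr]⟩)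
  · exact caseB hΦ RD.reid CT.cut hD hn h3 hm hC hpr k1 k2 k3
  · exact remT hΦ OT.out_inv Pool.Agent.Y333.TP.mid_planar Pool.Agent.Y514.TP.out_planar
      Pool.Agent.Y210.TP.move hD hn h3 hm hC hpr hT hW hcyc e1 e2 e3 e4

/-- a corner yields a reduction -/
theorem red_corner (hΦ : Her Φ) {D : Code} {Ts : List Tri} {m : ℕ → ℕ} (hD : Classical D)
    (hn : (D.map Prod.snd).Nodup) (h3 : InvP Φ D Ts) (hm : InvM (D ++ TC Ts) m)
    {C : List Pass × ℕ} (hC : C ∈ D) {p r : Pass} (hpr : Cyc p r C.1)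
    (hcase : Corner Ts m p r) : RedP Φ D Ts := by
  rcases hpr with ⟨u, v, hpr⟩ | ⟨u, hpr⟩
  · exact red_linear hΦ hD hn h3 hm hC hpr hcase
  · obtain ⟨D₁, D₂, rfl⟩ := List.append_of_mem hC
    have hperm : (D₁ ++ C :: D₂).Perm ((r :: u ++ [p], C.2) :: (D₁ ++ D₂)) := by
      have : C = (r :: u ++ [p], C.2) := Prod.ext hpr rfl
      rw [← this]
      exact List.perm_middle
    have c1 := classical_perm hperm hD
    have c2 : Classical (([p] ++ (r :: u), C.2) :: (D₁ ++ D₂)) := classical_rotate c1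
    have i1 := invP_perm hperm h3
    have i2 : InvP Φ (([p] ++ (r :: u), C.2) :: (D₁ ++ D₂)) Ts := invP_rotate i1
    have m1 : InvM ((r :: u ++ [p], C.2) :: (D₁ ++ D₂) ++ TC Ts) m :=
      invM_perm (hperm.append_right _) hm
    have m2 : InvM (([p] ++ (r :: u), C.2) :: (D₁ ++ D₂) ++ TC Ts) m := by
      simpa using invM_rotate (R := D₁ ++ D₂ ++ TC Ts) (x := r :: u) (y := [p]) (by simpa using m1)
    have l1 : ((([p] ++ (r :: u), C.2) :: (D₁ ++ D₂)).map Prod.snd).Nodup := by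
      have := (hperm.map Prod.snd).nodup hn
      simpa using this
    refine red_rotate hD hperm (red_linear hΦ c2 l1 i2 m2 (C := ([p] ++ (r :: u), C.2))
      (by simp) (a := []) (c := u) (p := p) (r := r) (by simp) hcase)

theorem part_fields {m : ℕ → ℕ} {p : Pass} (h : (part m p).crossing ≠ p.crossing) :
    (part m p).crossing = m p.crossing ∧ (part m p).isOver = p.isOver := by
  unfold part at h ⊢
  split_ifs at h ⊢ with h0
  · exact absurd rfl h
  · exact ⟨rfl, rfl⟩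

theorem canc_part {m : ℕ → ℕ} {p : Pass} : Canc m p (part m p) := by
  by_cases h : m p.crossing = p.crossing
  · left
    refine ⟨h, ?_, ?_⟩ <;> simp [part, h, Pass.mate]
  · right
    refine ⟨h, ?_, ?_⟩ <;> simp [part, h]

/-- the reduction step -/
theorem red_TF {D : Code} {Ts : List Tri} (hD : Classical D) (hn : (D.map Prod.snd).Nodup)
    (h3 : InvP TF D Ts) (h : passes D ≠ []) : RedP TF D Ts := by
  obtain ⟨m, hm⟩ := h3.inv
  have hloop : ∀ α, s(α, α) ∉ Ts.flatMap tprs := fun α h => h3.phi.tri α α α h h h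
  have hd : ∀ T ∈ Ts, ∀ e ∈ tprs T, ¬e.IsDiag := by
    intro T hT e he hdiag
    induction e using Sym2.ind with
    | _ a b =>
      rw [Sym2.mk_isDiag_iff] at hdiag
      subst hdiag
      exact hloop a (List.mem_flatMap.2 ⟨T, hT, he⟩)
  have hadj : ∀ {q : List Pass} {r p : Pass}, Cir Ts q → Cyc r p q →
      s(kap r, kap p) ∈ Ts.flatMap tprs := by
    rintro q r p ⟨T, hT, hq⟩ hc
    exact List.mem_flatMap.2 ⟨T, hT, adj_mem (h3.ok T hT).2 hq hc⟩
  have hmemC : ∀ {q : List Pass} {p : Pass}, Cir Ts q → p ∈ q → p ∈ passes (TC Ts) := by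
    rintro q p ⟨T, hT, hq⟩ hp
    exact code_mem hT (circle_mem hq hp)
  have hinT : ∀ {p : Pass}, p ∈ passes (TC Ts) → p ∈ passes (D ++ TC Ts) := by
    intro p hp; rw [passes_append']; exact List.mem_append_right _ hp
  have hinD : ∀ {p : Pass}, p ∈ passes D → p ∈ passes (D ++ TC Ts) := by
    intro p hp; rw [passes_append']; exact List.mem_append_left _ hp
  have kpart : ∀ {p : Pass}, p ∈ passes (TC Ts) → kap (part m p) = kap p := fun hp =>
    Pool.Agent.Y759.TP2.kap_part hm.2.1 (hinT hp)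
  obtain ⟨C, hC, hne⟩ : ∃ C ∈ D, C.1 ≠ [] := by
    by_contra hcon
    push Not at hcon
    apply h
    rw [List.eq_nil_iff_forall_not_mem]
    intro p hp
    obtain ⟨C, hC, hpC⟩ := mem_passes.1 hp
    rw [hcon C hC] at hpC
    simp at hpC
  have hCD : ∀ {p : Pass}, p ∈ C.1 → p ∈ passes D := fun hp => mem_passes.2 ⟨C, hC, hp⟩
  rcases small_face hn h3.wf hm.1 hm.2.2 hC hne with ⟨w, hw, x, hx, hc⟩ | ⟨q, hq, x, y, c1, c2⟩ |
    ⟨q, q', hq, hq', x, y, -, c1, c2⟩ | ⟨q₁, q₂, q₃, hq₁, hq₂, hq₃, x, y, z, c1, c2, c3⟩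
  · rcases hw with rfl | hw
    · exact red_corner her_TF hD hn h3 hm hC hc (Or.inl canc_part)
    · exfalso
      have h1 := hadj hw hc
      rw [kpart (hmemC hw hx)] at h1
      exact hloop _ h1
  · have hxC : x ∈ passes D := hCD (cyc_mem c1).1
    have hyC : part m y ∈ passes D := hCD (cyc_mem c1).2
    have hyT : y ∈ passes (TC Ts) := hmemC hq (cyc_mem c2).1
    have hxT : part m x ∈ passes (TC Ts) := hmemC hq (cyc_mem c2).2
    have e1 : (part m x).crossing ≠ x.crossing := sep hD.1 h3.wf hxC hxT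
    have e2 : y.crossing ≠ (part m y).crossing := sep hD.1 h3.wf hyC hyT
    have e3 : part m (part m y) = y := Pool.Agent.Y759.TP2.part_invol hm.1 (hinT hyT)
    obtain ⟨T, hT, hqT⟩ := hq
    refine red_corner her_TF hD hn h3 hm hC c1 (Or.inr ⟨T, hT, q, hqT, part m x, y, c2,
      (part_fields e1).1, (part_fields e1).2, ?_, ?_⟩)
    · have := (part_fields (m := m) (p := part m y) (by rw [e3]; exact e2)).1
      rwa [e3] at this
    · have := (part_fields (m := m) (p := part m y) (by rw [e3]; exact e2)).2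
      rwa [e3] at this
  · obtain ⟨Ts', g1, g2, g3, m', g4⟩ := bigon_step h3.wf hm h3.ok hd h3.phi.coh hq hq' c1 c2
    exact ⟨D, Ts', Or.inl g2, hD, hn, ⟨g3, fun T hT => h3.ok T (g1.subset hT),
      h3.phi.sub fun T hT => g1.subset hT, ⟨m', g4⟩⟩, Relation.ReflTransGen.refl⟩
  · exfalso
    have h1 := hadj hq₁ c1
    have h2 := hadj hq₂ c2
    have h4 := hadj hq₃ c3
    have mx := hmemC hq₁ (cyc_mem c1).1
    have my := hmemC hq₂ (cyc_mem c2).1
    have mz := hmemC hq₃ (cyc_mem c3).1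
    rw [kpart mz] at h1
    rw [kpart mx] at h2
    rw [kpart my] at h4
    exact h3.phi.tri _ _ _ h1 h4 h2

theorem movie_TF {D : Code} {Ts : List Tri} (hD : Classical D) (hn : (D.map Prod.snd).Nodup)
    (h : InvP TF D Ts) : Movie true false D [] :=
  movie_of_invP (Φ := TF) (fun D Ts hD hn h3 h => red_TF hD hn h3 h) _ _ D Ts rfl rfl hD hn h

end Pool.Agent.L0h30.SR
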