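import Pool.Agent.L0h30.SR.FaceB
import Pool.Agent.Y761.TP2.Flow
import Pool.Agent.Y759.TP2.Inst

/-! Small faces of diagrams with triple points. -/

namespace Pool.Agent.L0h30.SR

open Pool.Agent.Y468.SR
open Pool.Agent.Y874.TP hiding S_REID S_REN S_THREE S_OUT S_CUT S_JUNC CStep CReid CM InvM InvC Inv3
open Pool.Agent.Y874.TP2
open Pool.Agent.Y761.TP2 (lbl valid_lbl wval_lbl pc_ab)

/-- the part of the code with label `b` -/
def fil (E : Code) (b : ℕ) : Code := E.filter fun C => C.2 = b

theorem mem_fil {E : Code} {b : ℕ} {C : List Pass × ℕ} : C ∈ fil E b ↔ C ∈ E ∧ C.2 = b := by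
  simp [fil]

theorem bv_fil {G : Type} [Group G] (o u : ℕ → G) (E : Code) (b : ℕ) :
    bv (vals o u E) b = (fil E b).map fun C => wval o u C.1 := by
  unfold bv vals fil
  rw [List.filter_map, List.map_map]
  rfl

theorem fil_sublist (E : Code) (b : ℕ) : (fil E b).Sublist E := List.filter_sublist

theorem passes_sublist {E E' : Code} (h : E.Sublist E') : (passes E).Sublist (passes E') := by
  unfold passes
  exact h.flatMap _ 

theorem sum_flat (E : Code) (f : Pass → ℤ) :
    (E.map fun C => (C.1.map f).sum).sum = ((passes E).map f).sum := by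
  induction E with
  | nil => rfl
  | cons C E ih => rw [List.map_cons, List.sum_cons, ih, passes_cons, List.map_append, List.sum_append]

theorem sum_indicator {l : List Pass} (nd : l.Nodup) {p : Pass} (hp : p ∈ l) (f : Pass → ℤ)
    (h1 : f p = 1) (h0 : ∀ q ∈ l, q ≠ p → f q = 0) : (l.map f).sum = 1 := by
  induction l with
  | nil => simp at hp
  | cons x l ih =>
    rw [List.nodup_cons] at nd
    rw [List.map_cons, List.sum_cons]
    rcases List.mem_cons.1 hp with rfl | hp'
    · rw [h1]
      have : (l.map f).sum = 0 := by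
        refine List.sum_eq_zero fun y hy => ?_
        obtain ⟨q, hq, rfl⟩ := List.mem_map.1 hy
        exact h0 q (by simp [hq]) fun e => nd.1 (e ▸ hq)
      rw [this]; rfl
    · rw [ih nd.2 hp' fun q hq => h0 q (by simp [hq]), h0 x (by simp) fun e => nd.1 (e ▸ hp')]
      rfl

variable {m : ℕ → ℕ}

theorem part_ne {p : Pass} : part m p ≠ p := by
  intro h
  have := Pool.Agent.Y759.TP2.sg_part m p
  rw [h] at this
  unfold sg at this
  split_ifs at this <;> omega

/-- the two ends of an edge have one label -/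
theorem label_part {E : Code} (hw : WF (passes E)) (hm : Matching (passes E) m) (hv : NullV E m)
    {C C' : List Pass × ℕ} (hC : C ∈ E) (hC' : C' ∈ E) {p : Pass} (hp : p ∈ C.1)
    (hp' : part m p ∈ C'.1) : C'.2 = C.2 := by
  classical
  by_contra hne
  have hpE : p ∈ passes E := mem_passes.2 ⟨C, hC, hp⟩
  set f : Pass → ℤ := fun q => if q = p then 1 else if q = part m p then -1 else 0 with hf
  have f1 : f p = 1 := by simp [hf]
  have f2 : f (part m p) = -1 := by simp [hf, part_ne]
  have f3 : ∀ q, q ≠ p → q ≠ part m p → f q = 0 := by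
    intro q h1 h2; simp [hf, h1, h2]
  have hfl : ∀ q ∈ passes E, f (part m q) = -f q ∧ (0 : ℤ) = -0 := by
    intro q hq
    refine ⟨?_, rfl⟩
    by_cases e1 : q = p
    · rw [e1, f1, f2]
    · by_cases e2 : q = part m p
      · rw [e2, Pool.Agent.Y759.TP2.part_invol hm hpE, f1, f2]; rfl
      · rw [f3 q e1 e2, f3]
        · rfl
        · intro h
          exact e2 (by rw [← h, Pool.Agent.Y759.TP2.part_invol hm hq])
        · intro h
          have := congrArg (part m) h
          rw [Pool.Agent.Y759.TP2.part_invol hm hq, Pool.Agent.Y759.TP2.part_invol hm hpE] at this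
          exact e1 this
  have hV := valid_lbl (f := f) (g := fun _ => 0) hw hm hfl
  have h1 := (pc_ab (hv _ _ _ hV C.2)).1
  rw [bv_fil, List.map_map] at h1
  have h2 : ((fil E C.2).map (Pool.Agent.Y761.TP2.Hs.a ∘ fun C' : List Pass × ℕ =>
      wval (lbl (passes E) (fun p => ⟨f p, 0, 0⟩) true)
        (lbl (passes E) (fun p => ⟨f p, 0, 0⟩) false) C'.1)) =
      (fil E C.2).map fun C' => (C'.1.map f).sum := by
    refine List.map_congr_left fun C₁ hC₁ => ?_
    rw [Function.comp_apply, wval_lbl hw f (fun _ => 0) C₁.1 fun q hq =>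
      mem_passes.2 ⟨C₁, (mem_fil.1 hC₁).1, hq⟩]
  rw [h2, sum_flat] at h1
  have hnd : (passes (fil E C.2)).Nodup := (passes_sublist (fil_sublist E C.2)).nodup (WF.nodup hw)
  rw [sum_indicator hnd (p := p) (mem_passes.2 ⟨C, mem_fil.2 ⟨hC, rfl⟩, hp⟩) f f1] at h1
  · exact absurd h1 (by rw [Pool.Agent.Y761.TP2.one_a]; norm_num)
  · intro q hq hqp
    refine f3 q hqp ?_
    rintro rfl
    obtain ⟨C₁, hC₁, hq₁⟩ := mem_passes.1 hq
    obtain ⟨k1, k2⟩ := mem_fil.1 hC₁
    have : C₁ = C' := by
      by_contra hne'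
      have hnd' := WF.nodup hw
      rw [← Pool.Agent.Y759.TP2.flatten_fst] at hnd'
      have e := uniq_word hnd' C₁.1 (List.mem_map_of_mem k1) C'.1 (List.mem_map_of_mem hC') _ hq₁ hp'
      -- two members with the same nonempty word
      have hnd2 := WF.nodup hw
      obtain ⟨l₁, l₂, rfl⟩ := List.append_of_mem k1
      rw [passes_append', passes_cons] at hnd2
      rcases List.mem_append.1 hC' with h | h
      · exact (List.nodup_append.1 hnd2).2.2 _ (mem_passes.2 ⟨C', h, hp'⟩) _
          (List.mem_append_left _ hq₁) rfl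
      · rcases List.mem_cons.1 h with h | h
        · exact hne' h.symm
        · exact (List.nodup_append.1 (List.nodup_append.1 hnd2).2.1).2.2 _ hq₁ _
            (mem_passes.2 ⟨C', h, hp'⟩) rfl
    exact hne (by rw [← this, k2])

/-- `q` is one of the circles around the triple points -/
def Cir (Ts : List Tri) (q : List Pass) : Prop := ∃ T ∈ Ts, q ∈ [T.wi, T.wj, T.wk]

theorem mem_TC {Ts : List Tri} {C : List Pass × ℕ} (h : C ∈ TC Ts) : Cir Ts C.1 := by
  obtain ⟨T, hT, hC⟩ := List.mem_flatMap.1 h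
  refine ⟨T, hT, ?_⟩
  simp only [Tri.code, List.mem_cons, List.not_mem_nil, or_false] at hC ⊢
  rcases hC with rfl | rfl | rfl <;> simp

theorem cir_length {Ts : List Tri} {q : List Pass} (h : Cir Ts q) : q.length = 4 := by
  obtain ⟨T, -, h⟩ := h
  simp only [List.mem_cons, List.not_mem_nil, or_false] at h
  rcases h with rfl | rfl | rfl
  · unfold Tri.wi word4; split_ifs <;> rfl
  · unfold Tri.wj word4; split_ifs <;> rfl
  · unfold Tri.wk word4; split_ifs <;> rfl

theorem om_zero {f g : Pass → ℤ} {w : List Pass} (h : ∀ x ∈ w, f x = 0 ∧ g x = 0) :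
    om f g w = 0 := by
  induction w with
  | nil => rfl
  | cons x w ih =>
    rw [om, ih fun y hy => h y (by simp [hy]), (h x (by simp)).1, (h x (by simp)).2]; ring

theorem sum_fil (E : Code) (b : ℕ) (F : List Pass × ℕ → ℤ) (h : ∀ C ∈ E, C.2 ≠ b → F C = 0) :
    (E.map F).sum = ((fil E b).map F).sum := by
  induction E with
  | nil => rfl
  | cons C E ih =>
    rw [List.map_cons, List.sum_cons, ih fun C hC => h C (by simp [hC])]
    unfold fil
    rw [List.filter_cons]
    split_ifs with h1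
    · rw [List.map_cons, List.sum_cons]
    · rw [h C (by simp) (by simpa using h1), zero_add]

theorem fil_self {D : Code} (hn : (D.map Prod.snd).Nodup) {C : List Pass × ℕ} (hC : C ∈ D) :
    fil D C.2 = [C] := by
  obtain ⟨l₁, l₂, rfl⟩ := List.append_of_mem hC
  have h1 : ∀ C' ∈ l₁, C'.2 ≠ C.2 := by
    intro C' hC' e
    rw [List.map_append, List.nodup_append] at hn
    exact hn.2.2 C'.2 (List.mem_map_of_mem hC') C.2 (by simp) e
  have h2 : ∀ C' ∈ l₂, C'.2 ≠ C.2 := by
    intro C' hC' e
    rw [List.map_append, List.map_cons, List.nodup_append, List.nodup_cons] at hn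
    exact hn.2.1.1 (by rw [← e]; exact List.mem_map_of_mem hC')
  unfold fil
  rw [List.filter_append, List.filter_cons]
  have e1 : l₁.filter (fun C' => decide (C'.2 = C.2)) = [] := by
    rw [List.filter_eq_nil_iff]
    intro C' hC'
    simpa using h1 C' hC'
  have e2 : l₂.filter (fun C' => decide (C'.2 = C.2)) = [] := by
    rw [List.filter_eq_nil_iff]
    intro C' hC'
    simpa using h2 C' hC'
  rw [e1, e2]
  simp

/-- small faces -/
theorem small_face {D : Code} {Ts : List Tri} (hn : (D.map Prod.snd).Nodup)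
    (hw : WF (passes (D ++ TC Ts))) (hm : Matching (passes (D ++ TC Ts)) m)
    (hv : NullV (D ++ TC Ts) m) {C : List Pass × ℕ} (hC : C ∈ D) (hne : C.1 ≠ []) :
    (∃ w, (w = C.1 ∨ Cir Ts w) ∧ ∃ x ∈ w, CycL x (part m x) w) ∨
    (∃ q, Cir Ts q ∧ ∃ x y, CycL x (part m y) C.1 ∧ CycL y (part m x) q) ∨
    (∃ q q', Cir Ts q ∧ Cir Ts q' ∧ ∃ x y, x ≠ y ∧ CycL x (part m y) q ∧ CycL y (part m x) q') ∨
    ∃ q₁ q₂ q₃, Cir Ts q₁ ∧ Cir Ts q₂ ∧ Cir Ts q₃ ∧ ∃ x y z, CycL x (part m z) q₁ ∧
      CycL y (part m x) q₂ ∧ CycL z (part m y) q₃ := by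
  set E := D ++ TC Ts with hE
  set b := C.2 with hb
  set Q : List (List Pass) := (fil (TC Ts) b).map Prod.fst with hQ
  have hfil : fil E b = C :: fil (TC Ts) b := by
    have : fil E b = fil D b ++ fil (TC Ts) b := by
      unfold fil; rw [hE, List.filter_append]
    rw [this, hb, fil_self hn hC]; rfl
  have hdart : C.1 ++ Q.flatten = passes (fil E b) := by
    rw [hfil, passes_cons, hQ, Pool.Agent.Y759.TP2.flatten_fst]
  have hnd : (passes (fil E b)).Nodup := (passes_sublist (fil_sublist E b)).nodup (WF.nodup hw)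
  have hcirQ : ∀ q ∈ Q, Cir Ts q := by
    intro q hq
    obtain ⟨C', hC', rfl⟩ := List.mem_map.1 hq
    exact mem_TC (mem_fil.1 hC').1
  have hin : ∀ x ∈ passes (fil E b), x ∈ passes E := fun x hx =>
    (passes_sublist (fil_sublist E b)).subset hx
  have hpart : ∀ x ∈ passes (fil E b), part m x ∈ passes (fil E b) := by
    intro x hx
    obtain ⟨C₁, hC₁, hx₁⟩ := mem_passes.1 hx
    obtain ⟨k1, k2⟩ := mem_fil.1 hC₁
    obtain ⟨C₂, hC₂, hx₂⟩ := mem_passes.1 (Pool.Agent.Y759.TP2.part_mem hw hm (hin x hx))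
    have := label_part hw hm hv k1 hC₂ hx₁ hx₂
    exact mem_passes.2 ⟨C₂, mem_fil.2 ⟨hC₂, by rw [this, k2]⟩, hx₂⟩
  have hmem : ∀ C' ∈ E, C'.2 ≠ b → ∀ x ∈ C'.1, x ∉ passes (fil E b) := by
    intro C' hC' hne' x hx hx'
    obtain ⟨C₁, hC₁, hx₁⟩ := mem_passes.1 hx'
    obtain ⟨k1, k2⟩ := mem_fil.1 hC₁
    -- `x` lies in two members of the code
    have hnd2 := WF.nodup hw
    obtain ⟨l₁, l₂, hl⟩ := List.append_of_mem k1
    rw [hl, passes_append', passes_cons] at hnd2
    rw [hl] at hC'
    rcases List.mem_append.1 hC' with h | h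
    · exact (List.nodup_append.1 hnd2).2.2 _ (mem_passes.2 ⟨C', h, hx⟩) _
        (List.mem_append_left _ hx₁) rfl
    · rcases List.mem_cons.1 h with h | h
      · exact hne' (by rw [h, k2])
      · exact (List.nodup_append.1 (List.nodup_append.1 hnd2).2.1).2.2 _ hx₁ _
          (mem_passes.2 ⟨C', h, hx⟩) rfl
  have hF := faces C.1 Q (part m) sg hne (by rw [hdart]; exact hnd)
    (fun q hq => cir_length (hcirQ q hq)) (fun x hx => by
      rw [hdart] at hx ⊢
      refine ⟨hpart x hx, Pool.Agent.Y759.TP2.part_invol hm (hin x hx),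
        Pool.Agent.Y759.TP2.sg_part m x, ?_⟩
      unfold sg
      split_ifs
      · exact Or.inl rfl
      · exact Or.inr rfl) (fun f g h0 hfl hsum => by
      rw [hdart] at h0 hfl
      have k1 : ∀ p ∈ passes (D ++ TC Ts), f (part m p) = -f p ∧ g (part m p) = -g p := by
        intro p hp
        by_cases hpb : p ∈ passes (fil E b)
        · exact hfl p hpb
        · have : part m p ∉ passes (fil E b) := by
            intro h
            apply hpb
            have := hpart _ h
            rwa [Pool.Agent.Y759.TP2.part_invol hm hp] at this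
          rw [(h0 p hpb).1, (h0 p hpb).2, (h0 _ this).1, (h0 _ this).2]
          exact ⟨by ring, by ring⟩
      have k2 : ∀ C' ∈ TC Ts, (C'.1.map f).sum = 0 ∧ (C'.1.map g).sum = 0 := by
        intro C' hC'
        by_cases hb' : C'.2 = b
        · exact hsum C'.1 (List.mem_cons_of_mem _ (List.mem_map_of_mem (mem_fil.2 ⟨hC', hb'⟩)))
        · have hz := hmem C' (List.mem_append_right _ hC') hb'
          constructor
          · refine List.sum_eq_zero fun y hy => ?_
            obtain ⟨x, hx, rfl⟩ := List.mem_map.1 hy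
            exact (h0 x (hz x hx)).1
          · refine List.sum_eq_zero fun y hy => ?_
            obtain ⟨x, hx, rfl⟩ := List.mem_map.1 hy
            exact (h0 x (hz x hx)).2
      have k3 := (Pool.Agent.Y761.TP2.flow D (TC Ts) m f g hn hw hm hv k1 k2).2
      rw [← hE, sum_fil E b _ fun C' hC' hb' => om_zero fun x hx => h0 x (hmem C' hC' hb' x hx),
        hfil] at k3
      rw [List.map_cons, List.sum_cons] at k3 ⊢
      rw [hQ, List.map_map]
      exact k3)
  rcases hF with ⟨w, hw', x, hx, h⟩ | ⟨q, hq, x, y, h1, h2⟩ | ⟨q, hq, q', hq', x, y, h0, h1, h2⟩ |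
    ⟨q₁, hq₁, q₂, hq₂, q₃, hq₃, x, y, z, h1, h2, h3⟩
  · left
    refine ⟨w, ?_, x, hx, h⟩
    rcases List.mem_cons.1 hw' with h | h
    · exact Or.inl h
    · exact Or.inr (hcirQ w h)
  · right; left
    exact ⟨q, hcirQ q hq, x, y, h1, h2⟩
  · right; right; left
    exact ⟨q, q', hcirQ q hq, hcirQ q' hq', x, y, h0, h1, h2⟩
  · right; right; right
    exact ⟨q₁, q₂, q₃, hcirQ q₁ hq₁, hcirQ q₂ hq₂, hcirQ q₃ hq₃, x, y, z, h1, h2, h3⟩

end Pool.Agent.L0h30.SR
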