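import Pool.Agent.L0h30.SR.Free
import Pool.Agent.R800.TP.Even

/-! Discs given by movies. -/

namespace Pool.Agent.L0h30.SR

open Pool.Agent.Y468.SR
open Pool.Agent.Y874.TP hiding S_REID S_REN S_THREE S_OUT S_CUT S_JUNC CStep CReid CM InvM InvC Inv3
  creid_after same_facts invM_ceq invM_perm
open Pool.Agent.Y874.TP2
open Pool.Agent.Y874.TP2.T3
open Pool.Agent.R800.TP

theorem std_eq {T : Tri} {t : ℕ × ℕ × ℕ} (h : sig T = (t, (true, true, true))) : std T = t := by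
  simp only [sig, Prod.mk.injEq, Prod.ext_iff] at h
  obtain ⟨⟨h1, h2, h3⟩, h4, h5, h6⟩ := h
  simp only [std, h4, h5, h6, h1, h2, h3]

theorem sig_mem {Ts : List Tri} {T : List (ℕ × ℕ × ℕ)}
    (h : Ts.map sig = T.map fun t => (t, (true, true, true))) {S : Tri} (hS : S ∈ Ts) :
    ∃ t ∈ T, sig S = (t, (true, true, true)) := by
  have h1 : sig S ∈ T.map fun t => (t, (true, true, true)) := by
    rw [← h]; exact List.mem_map_of_mem hS
  obtain ⟨t, ht, h2⟩ := List.mem_map.1 h1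
  exact ⟨t, ht, h2.symm⟩

theorem ribbon_of_free {hd : Bool} {Z : ℕ → Prop} {D : Code} {T : List (ℕ × ℕ × ℕ)}
    (h : TMovie hd Z D T) (hZ : ∀ p ∈ passes D, ¬Z (colour p.crossing))
    (hn : (D.map Prod.snd).Nodup)
    (h₃ : ∀ α β γ, s(α, β) ∈ T.flatMap crs → s(β, γ) ∈ T.flatMap crs → s(γ, α) ∉ T.flatMap crs)
    (h₄ : ∀ t ∈ T, ∀ t' ∈ T, ∀ e ∈ crs t, e ∈ crs t' → t' = t) : Movie true false D [] := by
  obtain ⟨Ts, hI, hs⟩ := tmovie_inv' RD.reid RN.ren TH.three h hZ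
  refine movie_TF (tmovie_classical h) hn ⟨hI.wf, hI.ok, ⟨?_, ?_⟩, hI.inv⟩
  · rw [tprs_all hs]
    exact fun α β γ h1 h2 h3 => h₃ α β γ h1 h2 h3
  · intro S hS S' hS' e he he'
    obtain ⟨t, ht, h1⟩ := sig_mem hs hS
    obtain ⟨t', ht', h1'⟩ := sig_mem hs hS'
    rw [std_eq h1, std_eq h1']
    rw [tprs_eq h1] at he
    rw [tprs_eq h1'] at he'
    exact h₄ t ht t' ht' e he he'

end Pool.Agent.L0h30.SR
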