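import Pool.Agent.L0h30.SR.Euler

/-! Permutations with few points have short cycles. -/

namespace Pool.Agent.L0h30.SR

open Finset in
theorem small_orbit {X : Type} [Fintype X] [DecidableEq X] (φ : Equiv.Perm X) (wt : X → ℕ)
    (h1 : ∀ x, 1 ≤ wt x ∧ wt x ≤ 2)
    (h : ∑ x, wt x < 4 * Nat.card (Quotient (Equiv.Perm.SameCycle.setoid φ))) :
    ∃ x, φ x = x ∨ (φ x ≠ x ∧ φ (φ x) = x ∧ wt x + wt (φ x) ≤ 3) ∨
      (φ (φ (φ x)) = x ∧ wt x = 1 ∧ wt (φ x) = 1 ∧ wt (φ (φ x)) = 1) := by
  classical
  by_contra hcon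
  push Not at hcon
  refine absurd h (not_lt.2 ?_)
  have : Fintype (Quotient (Equiv.Perm.SameCycle.setoid φ)) := Fintype.ofFinite _
  rw [Nat.card_eq_fintype_card]
  have h2 : ∑ q : Quotient (Equiv.Perm.SameCycle.setoid φ),
      ∑ x with (Quotient.mk (Equiv.Perm.SameCycle.setoid φ) x) = q, wt x = ∑ x, wt x :=
    Finset.sum_fiberwise _ _ _
  rw [← h2]
  have h3 : 4 * Fintype.card (Quotient (Equiv.Perm.SameCycle.setoid φ)) =
      ∑ q : Quotient (Equiv.Perm.SameCycle.setoid φ), 4 := by
    rw [Finset.sum_const, Finset.card_univ, smul_eq_mul, mul_comm]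
  rw [h3]
  refine Finset.sum_le_sum fun q _ => ?_
  obtain ⟨x, rfl⟩ := Quotient.exists_rep q
  obtain ⟨k1, k2, k3⟩ := hcon x
  have key : ∀ s : Finset X, (∀ y ∈ s, φ.SameCycle y x) →
      ∑ y ∈ s, wt y ≤ ∑ y with (Quotient.mk (Equiv.Perm.SameCycle.setoid φ) y) =
        Quotient.mk (Equiv.Perm.SameCycle.setoid φ) x, wt y := by
    intro s hs
    refine Finset.sum_le_sum_of_subset fun y hy => ?_
    rw [Finset.mem_filter]
    exact ⟨Finset.mem_univ _, Quotient.sound (hs y hy)⟩
  have c0 : φ.SameCycle x x := Equiv.Perm.SameCycle.refl _ _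
  have c1 : φ.SameCycle (φ x) x := Equiv.Perm.sameCycle_apply_left.2 c0
  have c2 : φ.SameCycle (φ (φ x)) x := Equiv.Perm.sameCycle_apply_left.2 c1
  have c3 : φ.SameCycle (φ (φ (φ x))) x := Equiv.Perm.sameCycle_apply_left.2 c2
  have n2 : φ (φ x) ≠ φ x := fun e => k1 (φ.injective e)
  by_cases e2 : φ (φ x) = x
  · have := key {x, φ x} (by
      intro y hy
      simp only [Finset.mem_insert, Finset.mem_singleton] at hy
      rcases hy with rfl | rfl <;> assumption)
    rw [Finset.sum_pair (Ne.symm k1)] at this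
    have := k2 k1 e2
    omega
  · have n3 : φ (φ (φ x)) ≠ φ (φ x) := fun e => n2 (φ.injective e)
    have n3' : φ (φ (φ x)) ≠ φ x := fun e => e2 (φ.injective e)
    by_cases e3 : φ (φ (φ x)) = x
    · have := key {x, φ x, φ (φ x)} (by
        intro y hy
        simp only [Finset.mem_insert, Finset.mem_singleton] at hy
        rcases hy with rfl | rfl | rfl <;> assumption)
      rw [Finset.sum_insert, Finset.sum_pair (Ne.symm n2)] at this
      · have h4 := h1 x
        have h5 := h1 (φ x)
        have h6 := h1 (φ (φ x))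
        have h7 := k3 e3
        by_contra hlt
        exact h7 (by omega) (by omega) (by omega)
      · simp only [Finset.mem_insert, Finset.mem_singleton, not_or]
        exact ⟨Ne.symm k1, Ne.symm e2⟩
    · have := key {x, φ x, φ (φ x), φ (φ (φ x))} (by
        intro y hy
        simp only [Finset.mem_insert, Finset.mem_singleton] at hy
        rcases hy with rfl | rfl | rfl | rfl <;> assumption)
      rw [Finset.sum_insert, Finset.sum_insert, Finset.sum_pair (Ne.symm n3)] at this
      · have h4 := h1 x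
        have h5 := h1 (φ x)
        have h6 := h1 (φ (φ x))
        have h7 := h1 (φ (φ (φ x)))
        omega
      · simp only [Finset.mem_insert, Finset.mem_singleton, not_or]
        exact ⟨Ne.symm n2, Ne.symm n3'⟩
      · simp only [Finset.mem_insert, Finset.mem_singleton, not_or]
        exact ⟨Ne.symm k1, Ne.symm e2, Ne.symm e3⟩

end Pool.Agent.L0h30.SR
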