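import Pool.Agent.L0h30.SR.Algebra
import Pool.Agent.L0h30.SR.Loop
import Pool.Agent.R800.BT.Code

/-! Removing two opposite triple points from a code. -/

namespace Pool.Agent.L0h30.SR

open Pool.Agent.Y468.SR
open Pool.Agent.Y874.TP hiding S_REID S_REN S_THREE S_OUT S_CUT S_JUNC CStep CReid CM InvM InvC Inv3
  creid_after same_facts
open Pool.Agent.Y874.TP2
open Pool.Agent.R800.BT (Cr Vd exists_sign vd_iff cn_drop bv_one mate_code)

theorem perm_word4 (e : Bool) (p₁ p₂ q₁ q₂ : Pass) : (word4 e p₁ p₂ q₁ q₂).Perm [p₁, p₂, q₁, q₂] := by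
  unfold word4
  split_ifs
  · rw [List.perm_iff_count]; intro a; simp only [List.count_cons, List.count_nil]; omega
  · rw [List.perm_iff_count]; intro a; simp only [List.count_cons, List.count_nil]; omega

theorem perm_code (T : Tri) : (passes T.code).Perm
    [T.pa₁, T.pa₂, T.pb₁, T.pb₂, T.pa₁.mate, T.pa₂.mate, T.pc₁, T.pc₂, T.pb₁.mate, T.pb₂.mate,
      T.pc₁.mate, T.pc₂.mate] := by
  simp only [Tri.code, passes_cons, passes_nil, List.append_nil]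
  exact (perm_word4 _ _ _ _ _).append ((perm_word4 _ _ _ _ _).append (perm_word4 _ _ _ _ _))

def nms (T : Tri) : List ℕ := [T.a₁, T.a₂, T.b₁, T.b₂, T.c₁, T.c₂]

theorem nms_nodup {T : Tri} (h : ((passes T.code).map fun p => (p.crossing, p.isOver)).Nodup) :
    (nms T).Nodup := by
  have h1 := ((perm_code T).map fun p => (p.crossing, p.isOver)).nodup h
  have key : ∀ (a b c : ℕ) (t s r : Bool) (a' b' c' : ℕ),
      [(a, t), (a', t), (b, s), (b', s), (a, !t), (a', !t), (c, r), (c', r), (b, !s), (b', !s),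
        (c, !r), (c', !r)].Perm
      ([a, a', b, b', c, c'].map (fun n => (n, true)) ++
        [a, a', b, b', c, c'].map (fun n => (n, false))) := by
    intro a b c t s r a' b' c'
    have e1 : [(a, t), (a', t), (b, s), (b', s), (a, !t), (a', !t), (c, r), (c', r), (b, !s),
        (b', !s), (c, !r), (c', !r)].Perm
        ([(a, t), (a, !t)] ++ ([(a', t), (a', !t)] ++ ([(b, s), (b, !s)] ++ ([(b', s), (b', !s)] ++
          ([(c, r), (c, !r)] ++ [(c', r), (c', !r)]))))) := by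
      rw [List.perm_iff_count]; intro x
      simp only [List.cons_append, List.nil_append, List.count_cons, List.count_nil]; omega
    have e2 : ∀ (n : ℕ) (t : Bool), [(n, t), (n, !t)].Perm [(n, true), (n, false)] := by
      intro n t
      cases t
      · exact List.Perm.swap _ _ _
      · exact List.Perm.refl _
    refine e1.trans (((e2 a t).append ((e2 a' t).append ((e2 b s).append ((e2 b' s).append
      ((e2 c r).append (e2 c' r)))))).trans ?_)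
    rw [List.perm_iff_count]; intro x
    simp only [List.cons_append, List.nil_append, List.count_cons, List.count_nil, List.map_cons,
      List.map_nil]; omega
  have h2 := (key T.a₁ T.b₁ T.c₁ T.ta T.tb T.tc T.a₂ T.b₂ T.c₂).nodup h1
  exact List.Nodup.of_map _ (List.nodup_append.1 h2).1

theorem mem_nms {T : Tri} {c : ℕ} : c ∈ nms T ↔ ∃ p ∈ passes T.code, p.crossing = c := by
  constructor
  · intro h
    simp only [nms, List.mem_cons, List.not_mem_nil, or_false] at h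
    simp only [mem_code]
    rcases h with rfl | rfl | rfl | rfl | rfl | rfl
    · exact ⟨T.pa₁, by simp, rfl⟩
    · exact ⟨T.pa₂, by simp, rfl⟩
    · exact ⟨T.pb₁, by simp, rfl⟩
    · exact ⟨T.pb₂, by simp, rfl⟩
    · exact ⟨T.pc₁, by simp, rfl⟩
    · exact ⟨T.pc₂, by simp, rfl⟩
  · rintro ⟨p, hp, rfl⟩
    rw [mem_code] at hp
    simp only [nms, List.mem_cons, List.not_mem_nil, or_false]
    rcases hp with rfl | rfl | rfl | rfl | rfl | rfl | rfl | rfl | rfl | rfl | rfl | rfl <;>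
      simp [Tri.pa₁, Tri.pa₂, Tri.pb₁, Tri.pb₂, Tri.pc₁, Tri.pc₂, Pass.mate]

theorem wval_word4 {G : Type} [Group G] (o u : ℕ → G) (e : Bool) (p₁ p₂ q₁ q₂ : Pass) :
    wval o u (word4 e p₁ p₂ q₁ q₂) = w4 e (val o u p₁) (val o u p₂) (val o u q₁) (val o u q₂) := by
  cases e <;> simp [word4, w4, mul_assoc]

variable {m : ℕ → ℕ}

theorem mr_of {P : List Pass} {σ : ℕ → Bool} (hσ : ∀ p ∈ P, σ p.crossing = p.isPos)
    (hm : Matching P m) (hc : CM P m) : Mr (Cr P) m σ colour (fun k => k % 2 = 0) := by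
  rintro c ⟨p, hp, rfl⟩
  obtain ⟨q, hq, h1, h2, h3⟩ := hm p hp
  obtain ⟨h4, h5⟩ := hc p hp
  refine ⟨⟨q, hq, h1⟩, matching_invol hm hp, fun h => ?_, h4, fun h => ?_⟩
  · rw [← h1, hσ q hq, hσ p hp]
    exact h3 (by rw [h1]; exact h)
  · by_contra h6
    exact h5 h6 h

theorem of_mr {P : List Pass} {σ : ℕ → Bool} (hσ : ∀ p ∈ P, σ p.crossing = p.isPos)
    (h : Mr (Cr P) m σ colour (fun k => k % 2 = 0)) : Matching P m ∧ CM P m := by
  refine ⟨fun p hp => ?_, fun p hp => ?_⟩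
  · obtain ⟨⟨q, hq, h1⟩, h2, h3, -⟩ := h _ ⟨p, hp, rfl⟩
    refine ⟨q, hq, h1, by rw [h1, h2], fun h4 => ?_⟩
    rw [h1] at h4
    rw [← hσ q hq, h1, h3 h4, hσ p hp]
  · obtain ⟨-, -, -, h4, h5⟩ := h _ ⟨p, hp, rfl⟩
    exact ⟨h4, fun h6 h7 => h6 (h5 h7)⟩

/-- two opposite triple points joined by two edges -/
structure Mir (T T' : Tri) (m : ℕ → ℕ) : Prop where
  ca : colour T'.a₁ = colour T.a₁
  cb : colour T'.b₁ = colour T.b₁
  cc : colour T'.c₁ = colour T.c₁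
  ta : T'.ta = T.ta
  tb : T'.tb = T.tb
  tc : T'.tc = T.tc
  ei : T'.ei = !T.ei
  ej : T'.ej = !T.ej
  ek : T'.ek = !T.ek
  sa : T'.sa = !T.sa
  sb : T'.sb = !T.sb
  sc : T'.sc = !T.sc
  ma : m T.a₁ = T'.a₁
  mb : m T.b₁ = T'.b₁

theorem perm_nm2 (T T' : Tri) : (nms T ++ nms T').Perm
    [T.a₁, T'.a₁, T.b₁, T'.b₁, T.a₂, T'.a₂, T.b₂, T'.b₂, T.c₁, T'.c₁, T.c₂, T'.c₂] := by
  simp only [nms, List.cons_append, List.nil_append]
  rw [List.perm_iff_count]; intro a; simp only [List.count_cons, List.count_nil]; omega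

theorem mem_nm2 {T T' : Tri} {c : ℕ} :
    c ∈ [T.a₁, T'.a₁, T.b₁, T'.b₁, T.a₂, T'.a₂, T.b₂, T'.b₂, T.c₁, T'.c₁, T.c₂, T'.c₂] ↔
    c ∈ nms T ∨ c ∈ nms T' := by
  rw [← List.mem_append]
  exact (perm_nm2 T T').mem_iff.symm

theorem remove2 {T T' : Tri} {E : Code} (wf : WF (passes (T.code ++ (T'.code ++ E))))
    (hi : InvM (T.code ++ (T'.code ++ E)) m) (hc : T.Col) (hc' : T'.Col) (h : Mir T T' m) :
    ∃ m', InvM E m' := by
  obtain ⟨hm, hcm, hn⟩ := hi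
  obtain ⟨σ, hσ⟩ := exists_sign wf
  set P := passes (T.code ++ (T'.code ++ E)) with hP
  have hMr := mr_of hσ hm hcm
  have inT : ∀ p ∈ passes T.code, p ∈ P := by
    intro p hp; rw [hP, passes_append']; simp [hp]
  have inT' : ∀ p ∈ passes T'.code, p ∈ P := by
    intro p hp; rw [hP, passes_append', passes_append']; simp [hp]
  have inE : ∀ p ∈ passes E, p ∈ P := by
    intro p hp; rw [hP, passes_append', passes_append']; simp [hp]
  -- signs
  have sT : ∀ p ∈ passes T.code, σ p.crossing = p.isPos := fun p hp => hσ p (inT p hp)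
  have sT' : ∀ p ∈ passes T'.code, σ p.crossing = p.isPos := fun p hp => hσ p (inT' p hp)
  have k1 : σ T.a₂ = T.sa := sT T.pa₂ (by rw [mem_code]; simp)
  have k2 : σ T.b₂ = T.sb := sT T.pb₂ (by rw [mem_code]; simp)
  have k3 : σ T.c₁ = !T.sc := sT T.pc₁ (by rw [mem_code]; simp)
  have k4 : σ T.c₂ = T.sc := sT T.pc₂ (by rw [mem_code]; simp)
  have k1' : σ T'.a₂ = T'.sa := sT' T'.pa₂ (by rw [mem_code]; simp)
  have k2' : σ T'.b₂ = T'.sb := sT' T'.pb₂ (by rw [mem_code]; simp)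
  have k3' : σ T'.c₁ = !T'.sc := sT' T'.pc₁ (by rw [mem_code]; simp)
  have k4' : σ T'.c₂ = T'.sc := sT' T'.pc₂ (by rw [mem_code]; simp)
  -- the names
  have hnd := wf.2
  rw [hP, passes_append', passes_append', List.map_append, List.map_append] at hnd
  have n1 : (nms T).Nodup := nms_nodup (List.nodup_append.1 hnd).1
  have n2 : (nms T').Nodup := nms_nodup (List.nodup_append.1 (List.nodup_append.1 hnd).2.1).1
  have wf1 : WF (passes T.code ++ (passes T'.code ++ passes E)) := by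
    rw [← passes_append', ← passes_append']; exact wf
  have n3 : ∀ c ∈ nms T, ∀ c' ∈ nms T', c ≠ c' := by
    intro c hc c' hc' e
    obtain ⟨p, hp, h1⟩ := mem_nms.1 hc
    obtain ⟨q, hq, h2⟩ := mem_nms.1 hc'
    exact wf1.ne_crossing hp (mate_code hp) (List.mem_append_left _ hq) (by rw [h1, h2, e])
  have n4 : ∀ c ∈ nms T, ∀ p ∈ passes E, p.crossing ≠ c := by
    intro c hc p hp e
    obtain ⟨q, hq, h1⟩ := mem_nms.1 hc
    exact wf1.ne_crossing hq (mate_code hq) (List.mem_append_right _ hp) (by rw [h1, e])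
  have wf2 : WF (passes T'.code ++ passes E) := wf1.remove fun p hp => mate_code hp
  have n5 : ∀ c ∈ nms T', ∀ p ∈ passes E, p.crossing ≠ c := by
    intro c hc p hp e
    obtain ⟨q, hq, h1⟩ := mem_nms.1 hc
    exact wf2.ne_crossing hq (mate_code hq) hp (by rw [h1, e])
  have nd : [T.a₁, T'.a₁, T.b₁, T'.b₁, T.a₂, T'.a₂, T.b₂, T'.b₂, T.c₁, T'.c₁, T.c₂, T'.c₂].Nodup := by
    exact (perm_nm2 T T').nodup (List.nodup_append.2 ⟨n1, n2, n3⟩)
  have hS : ∀ c ∈ [T.a₁, T'.a₁, T.b₁, T'.b₁, T.a₂, T'.a₂, T.b₂, T'.b₂, T.c₁, T'.c₁, T.c₂, T'.c₂],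
      c ∈ Cr P := by
    intro c hc
    rcases mem_nm2.1 hc with h | h
    · obtain ⟨p, hp, h1⟩ := mem_nms.1 h
      exact ⟨p, inT p hp, h1⟩
    · obtain ⟨p, hp, h1⟩ := mem_nms.1 h
      exact ⟨p, inT' p hp, h1⟩
  obtain ⟨m', g1, g2⟩ := el12 hMr nd hS h.ma h.mb
    ⟨by rw [k1, k1', h.sa], by rw [hc.1, hc'.1, h.ca]⟩
    ⟨by rw [k2, k2', h.sb], by rw [hc.2.1, hc'.2.1, h.cb]⟩
    ⟨by rw [k3, k3', h.sc], h.cc⟩ ⟨by rw [k4, k4', h.sc], by rw [hc.2.2, hc'.2.2, h.cc]⟩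
  have hcr : Cr P \ {c | c ∈ [T.a₁, T'.a₁, T.b₁, T'.b₁, T.a₂, T'.a₂, T.b₂, T'.b₂, T.c₁, T'.c₁,
      T.c₂, T'.c₂]} = Cr (passes E) := by
    ext c
    constructor
    · rintro ⟨⟨p, hp, rfl⟩, h2⟩
      rw [hP, passes_append', passes_append'] at hp
      have h2' : ¬(p.crossing ∈ nms T ∨ p.crossing ∈ nms T') := by
        intro h3
        exact h2 (mem_nm2.2 h3)
      rcases List.mem_append.1 hp with hp | hp
      · exact absurd (Or.inl (mem_nms.2 ⟨p, hp, rfl⟩)) h2'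
      · rcases List.mem_append.1 hp with hp | hp
        · exact absurd (Or.inr (mem_nms.2 ⟨p, hp, rfl⟩)) h2'
        · exact ⟨p, hp, rfl⟩
    · rintro ⟨p, hp, rfl⟩
      refine ⟨⟨p, inE p hp, rfl⟩, fun h2 => ?_⟩
      rcases mem_nm2.1 h2 with h3 | h3
      · exact n4 _ h3 p hp rfl
      · exact n5 _ h3 p hp rfl
  rw [hcr] at g1 g2
  obtain ⟨q1, q2⟩ := of_mr (fun p hp => hσ p (inE p hp)) g1
  refine ⟨m', q1, q2, fun G _ o u hv b => ?_⟩
  obtain ⟨o₁, u₁, r0, r1, r2, r3, r4, r5⟩ := g2 G o u (vd_iff.2 hv)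
  -- the free labels
  obtain ⟨A, hA⟩ := w4_solve T.ei (val o₁ u₁ T.pa₂) 1 (val o₁ u₁ T.pb₂)
  obtain ⟨B, hB⟩ := w4_solve T.ej (val o₁ u₁ T.pa₂.mate) (val o₁ u₁ T.pc₁) (val o₁ u₁ T.pc₂)
  obtain ⟨C, hC⟩ := w4_solve T.ek (val o₁ u₁ T.pb₂.mate) (val o₁ u₁ T.pc₁.mate)
    (val o₁ u₁ T.pc₂.mate)
  set O : ℕ → G := up4 T.a₁ T'.a₁ T.b₁ T'.b₁ (if T.ta then A else B) (if T.tb then 1 else C) o₁
    with hO
  set U : ℕ → G := up4 T.a₁ T'.a₁ T.b₁ T'.b₁ (if T.ta then B else A) (if T.tb then C else 1) u₁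
    with hU
  have hV : Vd (Cr P) m O U := r5 _ _ _ _
  simp only [List.nodup_cons, List.mem_cons, List.not_mem_nil, or_false, not_or,
    not_false_eq_true, List.nodup_nil, and_true] at nd
  obtain ⟨⟨a2, a3, a4, a5, a6, a7, a8, a9, a10, a11, a12⟩,
    ⟨b3, b4, b5, b6, b7, b8, b9, b10, b11, b12⟩, ⟨c4, c5, c6, c7, c8, c9, c10, c11, c12⟩,
    ⟨d5, d6, d7, d8, d9, d10, d11, d12⟩, -⟩ := nd
  have oth : ∀ c, c ≠ T.a₁ → c ≠ T'.a₁ → c ≠ T.b₁ → c ≠ T'.b₁ → O c = o₁ c ∧ U c = u₁ c := by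
    intro c h1 h2 h3 h4
    simp [hO, hU, up4, h1, h2, h3, h4]
  have xa : O T.a₁ = (if T.ta then A else B) ∧ U T.a₁ = (if T.ta then B else A) := by
    simp [hO, hU, up4]
  have xa' : O T'.a₁ = (O T.a₁)⁻¹ ∧ U T'.a₁ = (U T.a₁)⁻¹ := by
    simp [hO, hU, up4, Ne.symm a2]
  have xb : O T.b₁ = (if T.tb then 1 else C) ∧ U T.b₁ = (if T.tb then C else 1) := by
    simp [hO, hU, up4, Ne.symm a3, Ne.symm b3]
  have xb' : O T'.b₁ = (O T.b₁)⁻¹ ∧ U T'.b₁ = (U T.b₁)⁻¹ := by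
    simp [hO, hU, up4, Ne.symm a3, Ne.symm b3, Ne.symm a4, Ne.symm b4, Ne.symm c4]
  have y1 := oth T.a₂ (Ne.symm a5) (Ne.symm b5) (Ne.symm c5) (Ne.symm d5)
  have y1' := oth T'.a₂ (Ne.symm a6) (Ne.symm b6) (Ne.symm c6) (Ne.symm d6)
  have y2 := oth T.b₂ (Ne.symm a7) (Ne.symm b7) (Ne.symm c7) (Ne.symm d7)
  have y2' := oth T'.b₂ (Ne.symm a8) (Ne.symm b8) (Ne.symm c8) (Ne.symm d8)
  have y3 := oth T.c₁ (Ne.symm a9) (Ne.symm b9) (Ne.symm c9) (Ne.symm d9)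
  have y3' := oth T'.c₁ (Ne.symm a10) (Ne.symm b10) (Ne.symm c10) (Ne.symm d10)
  have y4 := oth T.c₂ (Ne.symm a11) (Ne.symm b11) (Ne.symm c11) (Ne.symm d11)
  have y4' := oth T'.c₂ (Ne.symm a12) (Ne.symm b12) (Ne.symm c12) (Ne.symm d12)
  -- labels of passes
  have vgen : ∀ (p p' : Pass), p'.isOver = p.isOver → O p'.crossing = (O p.crossing)⁻¹ →
      U p'.crossing = (U p.crossing)⁻¹ → val O U p' = (val O U p)⁻¹ := by
    intro p p' h1 h2 h3
    unfold val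
    rw [h1, h2, h3]
    split_ifs <;> rfl
  have vsame : ∀ p : Pass, O p.crossing = o₁ p.crossing ∧ U p.crossing = u₁ p.crossing →
      val O U p = val o₁ u₁ p := by
    intro p h1
    unfold val
    rw [h1.1, h1.2]
  have z1 := vgen T.pa₁ T'.pa₁ h.ta xa'.1 xa'.2
  have z1m := vgen T.pa₁.mate T'.pa₁.mate (by simp [Pass.mate, Tri.pa₁, h.ta]) xa'.1 xa'.2
  have z2 := vgen T.pb₁ T'.pb₁ h.tb xb'.1 xb'.2
  have z2m := vgen T.pb₁.mate T'.pb₁.mate (by simp [Pass.mate, Tri.pb₁, h.tb]) xb'.1 xb'.2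
  have w1 : O T'.a₂ = (O T.a₂)⁻¹ ∧ U T'.a₂ = (U T.a₂)⁻¹ := by
    rw [y1.1, y1.2, y1'.1, y1'.2]; exact r1
  have w2 : O T'.b₂ = (O T.b₂)⁻¹ ∧ U T'.b₂ = (U T.b₂)⁻¹ := by
    rw [y2.1, y2.2, y2'.1, y2'.2]; exact r2
  have w3 : O T'.c₁ = (O T.c₁)⁻¹ ∧ U T'.c₁ = (U T.c₁)⁻¹ := by
    rw [y3.1, y3.2, y3'.1, y3'.2]; exact r3
  have w4' : O T'.c₂ = (O T.c₂)⁻¹ ∧ U T'.c₂ = (U T.c₂)⁻¹ := by
    rw [y4.1, y4.2, y4'.1, y4'.2]; exact r4
  have z3 := vgen T.pa₂ T'.pa₂ h.ta w1.1 w1.2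
  have z3m := vgen T.pa₂.mate T'.pa₂.mate (by simp [Pass.mate, Tri.pa₂, h.ta]) w1.1 w1.2
  have z4 := vgen T.pb₂ T'.pb₂ h.tb w2.1 w2.2
  have z4m := vgen T.pb₂.mate T'.pb₂.mate (by simp [Pass.mate, Tri.pb₂, h.tb]) w2.1 w2.2
  have z5 := vgen T.pc₁ T'.pc₁ h.tc w3.1 w3.2
  have z5m := vgen T.pc₁.mate T'.pc₁.mate (by simp [Pass.mate, Tri.pc₁, h.tc]) w3.1 w3.2
  have z6 := vgen T.pc₂ T'.pc₂ h.tc w4'.1 w4'.2
  have z6m := vgen T.pc₂.mate T'.pc₂.mate (by simp [Pass.mate, Tri.pc₂, h.tc]) w4'.1 w4'.2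
  have va : val O U T.pa₁ = A := by
    unfold val
    simp only [Tri.pa₁, xa.1, xa.2]
    cases T.ta <;> simp
  have vam : val O U T.pa₁.mate = B := by
    unfold val
    simp only [Tri.pa₁, Pass.mate, xa.1, xa.2]
    cases T.ta <;> simp
  have vb : val O U T.pb₁ = 1 := by
    unfold val
    simp only [Tri.pb₁, xb.1, xb.2]
    cases T.tb <;> simp
  have vbm : val O U T.pb₁.mate = C := by
    unfold val
    simp only [Tri.pb₁, Pass.mate, xb.1, xb.2]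
    cases T.tb <;> simp
  have e1 : w4 T.ei (val O U T.pa₁) (val O U T.pa₂) (val O U T.pb₁) (val O U T.pb₂) = 1 := by
    rw [va, vb, vsame T.pa₂ y1, vsame T.pb₂ y2]; exact hA
  have e2 : w4 T.ej (val O U T.pa₁.mate) (val O U T.pa₂.mate) (val O U T.pc₁)
      (val O U T.pc₂) = 1 := by
    rw [vam, vsame T.pa₂.mate y1, vsame T.pc₁ y3, vsame T.pc₂ y4]; exact hB
  have e3 : w4 T.ek (val O U T.pb₁.mate) (val O U T.pb₂.mate) (val O U T.pc₁.mate)
      (val O U T.pc₂.mate) = 1 := by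
    rw [vbm, vsame T.pb₂.mate y2, vsame T.pc₁.mate y3, vsame T.pc₂.mate y4]; exact hC
  have f1 : ∀ w ∈ T.code, wval O U w.1 = 1 := by
    intro w hw
    simp only [Tri.code, List.mem_cons, List.not_mem_nil, or_false] at hw
    rcases hw with rfl | rfl | rfl
    · exact (wval_word4 _ _ _ _ _ _ _).trans e1
    · exact (wval_word4 _ _ _ _ _ _ _).trans e2
    · exact (wval_word4 _ _ _ _ _ _ _).trans e3
  have f2 : ∀ w ∈ T'.code, wval O U w.1 = 1 := by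
    intro w hw
    simp only [Tri.code, List.mem_cons, List.not_mem_nil, or_false] at hw
    rcases hw with rfl | rfl | rfl
    · refine (wval_word4 _ _ _ _ _ _ _).trans ?_
      rw [h.ei, z1, z2, z3, z4]
      exact w4_mirror _ e1
    · refine (wval_word4 _ _ _ _ _ _ _).trans ?_
      rw [h.ej, z1m, z3m, z5, z6]
      exact w4_mirror _ e2
    · refine (wval_word4 _ _ _ _ _ _ _).trans ?_
      rw [h.ek, z2m, z4m, z5m, z6m]
      exact w4_mirror _ e3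
  have t1 := hn G O U (vd_iff.1 hV) b
  rw [vals_append, bv_append] at t1
  have t2 := cn_drop (bv_one f1 b) t1
  rw [vals_append, bv_append] at t2
  have t3 := cn_drop (bv_one f2 b) t2
  have t4 : vals O U E = vals o u E := by
    unfold vals
    refine List.map_congr_left fun C₀ hC₀ => ?_
    refine Prod.ext ?_ rfl
    refine wval_congr fun r hr => ?_
    have hr' : r ∈ passes E := mem_passes.2 ⟨C₀, hC₀, hr⟩
    have i1 : r.crossing ∉ [T.a₁, T'.a₁, T.b₁, T'.b₁, T.a₂, T'.a₂, T.b₂, T'.b₂, T.c₁, T'.c₁,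
        T.c₂, T'.c₂] := by
      intro h2
      rcases mem_nm2.1 h2 with h3 | h3
      · exact n4 _ h3 r hr' rfl
      · exact n5 _ h3 r hr' rfl
    have i2 := r0 _ i1
    simp only [List.mem_cons, List.not_mem_nil, or_false, not_or] at i1
    have i3 := oth r.crossing i1.1 i1.2.1 i1.2.2.1 i1.2.2.2.1
    unfold val
    rw [i3.1, i3.2, i2.1, i2.2]
  rwa [t4] at t3

end Pool.Agent.L0h30.SR
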